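import Pool.Agent.NPC.Sat2
import Pool.Agent.NPC.Classes
import Pool.Agent.H660R2.NX.Univ
import Pool.Agent.H591R2.RawOut

/-!
# A Ladner-type diagonalisation for satisfiability with holes
-/

namespace Pool.Agent.H374Z.FB

open Pool.Agent.NPC Pool.Agent.H660R2.NX

/-- clauses with three literals -/
abbrev Cl : Type := (Bool × ℕ) × (Bool × ℕ) × (Bool × ℕ)
/-- a number of variables (in unary) and a formula -/
abbrev Item : Type := List Unit × List Cl
/-- a flag and a list of items -/
abbrev HInst : Type := Bool × List Item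

/-- the clause holds, or it has a variable `≥ n` -/
def ClOK (n : ℕ) (τ : ℕ → Bool) (c : Cl) : Prop :=
  c.1.2 < n → c.2.1.2 < n → c.2.2.2 < n →
    τ c.1.2 = c.1.1 ∨ τ c.2.1.2 = c.2.1.1 ∨ τ c.2.2.2 = c.2.2.1

/-- satisfiability of the clauses on the variables `< n` -/
def SB (it : Item) : Prop := ∃ τ : ℕ → Bool, ∀ c ∈ it.2, ClOK it.1.length τ c

/-- satisfiability with holes -/
def G (f : ℕ → Bool) (it : Item) : Prop := f it.1.length = true → SB it

/-- conjunctions -/
def H (f : ℕ → Bool) (p : HInst) : Prop := p.1 = true ∧ ∀ it ∈ p.2, G f it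

/-! ### bit strings -/

def str (k : ℕ) : List Bool := (k + 1).bits.reverse.tail.reverse

theorem bits_valB (x : List Bool) : (valB (x ++ [true])).bits = x ++ [true] ∧
    0 < valB (x ++ [true]) := by
  induction x with
  | nil => simp
  | cons b x ih =>
    have e : valB (b :: x ++ [true]) = Nat.bit b (valB (x ++ [true])) := by
      rw [List.cons_append, valB_cons]
      cases b <;> simp [Nat.bit] <;> omega
    rw [e]
    refine ⟨?_, ?_⟩
    · rw [Nat.bits_append_bit _ _ (fun h => by omega), ih.1]; rfl
    · have := ih.2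
      cases b <;> simp [Nat.bit] <;> omega

theorem str_surj (x : List Bool) : ∃ k, k < 2 ^ (x.length + 1) ∧ str k = x := by
  obtain ⟨h1, h2⟩ := bits_valB x
  refine ⟨valB (x ++ [true]) - 1, ?_, ?_⟩
  · have := valB_lt (x ++ [true])
    simp only [List.length_append, List.length_singleton] at this
    omega
  · unfold str
    rw [Nat.sub_add_cancel h2, h1]
    simp

@[fun_prop] theorem poly_str {α : Type} [TEnc α] {k : α → ℕ} (hk : Poly k) :
    Poly (fun a => str (k a)) := by
  unfold str
  have : Poly (fun a => (k a + 1).bits) := Poly.natBits (by fun_prop)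
  fun_prop

/-! ### brute force -/

def clb (n : ℕ) (w : List Bool) (c : Cl) : Bool :=
  !(decide (c.1.2 < n) && decide (c.2.1.2 < n) && decide (c.2.2.2 < n)) ||
    (decide (w.getD c.1.2 false = c.1.1) || decide (w.getD c.2.1.2 false = c.2.1.1) ||
      decide (w.getD c.2.2.2 false = c.2.2.1))

theorem clb_iff (n : ℕ) (w : List Bool) (c : Cl) :
    clb n w c = true ↔ ClOK n (fun v => w.getD v false) c := by
  unfold clb ClOK
  simp only [Bool.or_eq_true, Bool.not_eq_true', Bool.and_eq_false_iff, decide_eq_false_iff_not,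
    decide_eq_true_eq]
  tauto

@[fun_prop] theorem poly_clb {α : Type} [TEnc α] {n : α → ℕ} {w : α → List Bool} {c : α → Cl}
    (hn : Poly n) (hw : Poly w) (hc : Poly c) : Poly (fun a => clb (n a) (w a) (c a)) := by
  unfold clb
  fun_prop

theorem SB_iff (it : Item) : SB it ↔ ∃ w : List Bool, w.length = it.1.length ∧
    it.2.all (clb it.1.length w) = true := by
  constructor
  · rintro ⟨τ, hτ⟩
    refine ⟨(List.range it.1.length).map τ, by simp, ?_⟩
    rw [List.all_eq_true]
    intro c hc
    rw [clb_iff]
    intro h1 h2 h3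
    have e : ∀ v, v < it.1.length → ((List.range it.1.length).map τ).getD v false = τ v := by
      intro v hv
      rw [List.getD_eq_getElem?_getD, List.getElem?_map, List.getElem?_range hv]
      rfl
    simp only
    rw [e _ h1, e _ h2, e _ h3]
    exact hτ c hc h1 h2 h3
  · rintro ⟨w, _, hw⟩
    rw [List.all_eq_true] at hw
    exact ⟨_, fun c hc => (clb_iff _ _ _).1 (hw c hc)⟩

/-- brute force with budget `|h|` -/
def btest (r : List ℕ) (it : Item) : Bool := r.any (fun a => it.2.all (clb it.1.length (str a)))

@[fun_prop] theorem poly_btest {α : Type} [TEnc α] {r : α → List ℕ} {it : α → Item}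
    (hr : Poly r) (hit : Poly it) : Poly (fun a => btest (r a) (it a)) := by
  unfold btest
  fun_prop

def small (n : ℕ) (it : Item) : Bool := decide (it.1.length + 1 < n.bits.length)

theorem small_iff (n : ℕ) (it : Item) : small n it = true ↔ 2 ^ (it.1.length + 1) ≤ n := by
  unfold small
  rw [decide_eq_true_eq, Nat.size_eq_bits_len, Nat.lt_size]

@[fun_prop] theorem poly_small {α : Type} [TEnc α] {n : α → ℕ} {it : α → Item}
    (hn : Poly n) (hit : Poly it) : Poly (fun a => small (n a) (it a)) := by
  unfold small
  have : Poly (fun a => (n a).bits) := Poly.natBits hn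
  fun_prop

theorem btest_iff {n : ℕ} {it : Item} (h : small n it = true) :
    btest (List.range n) it = true ↔ SB it := by
  rw [small_iff] at h
  unfold btest
  rw [List.any_eq_true]
  constructor
  · rintro ⟨a, _, ha⟩
    rw [List.all_eq_true] at ha
    exact ⟨_, fun c hc => (clb_iff _ _ _).1 (ha c hc)⟩
  · intro hs
    obtain ⟨w, hw, hw'⟩ := (SB_iff it).1 hs
    obtain ⟨k, hk, rfl⟩ := str_surj w
    rw [hw] at hk
    exact ⟨k, List.mem_range.2 (by omega), hw'⟩

theorem SB_np : InNPP SB := by
  refine inNPP_of (β := List Bool) (R := fun p => p.1.2.all (clb p.1.1.length p.2))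
    (by fun_prop) (4 * Polynomial.X + 1) fun it => ?_
  rw [SB_iff]
  constructor
  · rintro ⟨w, hw, h⟩
    refine ⟨w, ?_, h⟩
    have h1 := sz_listBool_le w
    have h2 := length_lt_sz it.1
    have h3 : sz it = sz it.1 + sz it.2 + 1 := sz_pair _ _
    simp only [Polynomial.eval_add, Polynomial.eval_mul, Polynomial.eval_X, Polynomial.eval_one,
      Polynomial.eval_ofNat]
    omega
  · rintro ⟨w, _, h⟩
    rw [← SB_iff]
    rw [List.all_eq_true] at h
    exact ⟨_, fun c hc => (clb_iff _ _ _).1 (h c hc)⟩

theorem SB_hard : NPHardP SB := by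
  have h : HardPr (fun _ => True) SB := by
    refine hardPr_SAT3b.trans (f := fun φ => (((φ ++ φ ++ φ).map (fun _ => ()), φ) : Item))
      (by fun_prop) (fun _ _ => trivial) fun φ hφ => ?_
    have hl : ((φ ++ φ ++ φ).map (fun _ => ())).length = 3 * φ.length := by simp; omega
    constructor
    · rintro ⟨τ, hτ⟩
      exact ⟨τ, fun c hc _ _ _ => hτ c hc⟩
    · rintro ⟨τ, hτ⟩
      refine ⟨τ, fun c hc => ?_⟩
      obtain ⟨h1, h2, h3⟩ := hφ.2.1 c hc
      have := hτ c hc
      unfold ClOK at this
      rw [hl] at this
      exact this h1 h2 h3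
  exact h.toHardI.toNPHardP

/-! ### clocked machines -/

abbrev Code : Type := (T × List Unit) × List Unit

def run (e : Code) (x : List Bool) : List Bool :=
  (U e.1 x ((x.length + 2) ^ e.2.length)).getD []

theorem poly_le_pow (p : Polynomial ℕ) : ∃ c, ∀ n, p.eval n ≤ (n + 2) ^ c := by
  induction p using Polynomial.induction_on' with
  | add p q hp hq =>
    obtain ⟨c, hc⟩ := hp
    obtain ⟨d, hd⟩ := hq
    refine ⟨c + d + 1, fun n => ?_⟩
    have h1 := hc n
    have h2 := hd n
    have h3 : (n + 2) ^ c ≤ (n + 2) ^ (c + d) := Nat.pow_le_pow_right (by omega) (by omega)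
    have h4 : (n + 2) ^ d ≤ (n + 2) ^ (c + d) := Nat.pow_le_pow_right (by omega) (by omega)
    rw [Polynomial.eval_add, pow_succ]
    nlinarith
  | monomial k a =>
    refine ⟨a + k, fun n => ?_⟩
    rw [Polynomial.eval_monomial, pow_add]
    refine Nat.mul_le_mul ?_ (Nat.pow_le_pow_left (by omega) _)
    exact (Nat.lt_two_pow_self).le.trans (Nat.pow_le_pow_left (by omega) _)

theorem run_complete {V : List Bool → List Bool} (hV : PolyTime V) :
    ∃ e : Code, ∀ x, run e x = V x := by
  obtain ⟨e, p, h⟩ := U_complete hV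
  obtain ⟨c, hc⟩ := poly_le_pow p
  refine ⟨(e, List.replicate c ()), fun x => ?_⟩
  unfold run
  simp only [List.length_replicate]
  rw [h x _ (hc _)]
  rfl

theorem poly_U' {α : Type} [TEnc α] {e : α → T × List Unit} {x : α → List Bool} {t : α → ℕ}
    (he : Poly e) (hx : Poly x) (ht : UPoly t) : Poly (fun a => U (e a) (x a) (t a)) := by
  have ht' : Poly (fun a => List.replicate (t a) ()) := ht
  refine (poly_U.comp (f := fun a => (e a, x a, List.replicate (t a) ())) (by fun_prop)).congr
    fun a => ?_
  simp

theorem poly_run (e : Code) : Poly (run e) := by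
  unfold run
  have h1 : UPoly (fun x : List Bool => (x.length + 2) ^ e.2.length) := by
    have := (UPoly.length (l := fun x : List Bool => x) Poly.id).eval
      ((Polynomial.X + 2) ^ e.2.length)
    simpa using this
  have h2 := poly_U' (e := fun _ : List Bool => e.1) (x := fun x => x) (NPC.Poly.const _) Poly.id h1
  fun_prop

/-- capped power -/
def cap (n b : ℕ) (c : List Unit) : ℕ := (fun s => min (s * b) (n + 1))^[c.length] 1

theorem cap_aux (n b : ℕ) (hb : 1 ≤ b) (k : ℕ) :
    (fun s => min (s * b) (n + 1))^[k] 1 = min (b ^ k) (n + 1) := by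
  induction k with
  | zero => simp
  | succ k ih =>
    rw [Function.iterate_succ_apply', ih, pow_succ]
    rcases le_total (b ^ k) (n + 1) with h | h
    · rw [min_eq_left h]
    · rw [min_eq_right h]
      have h1 : n + 1 ≤ (n + 1) * b := Nat.le_mul_of_pos_right _ hb
      have h2 : (n + 1) * b ≤ b ^ k * b := Nat.mul_le_mul_right _ h
      rw [min_eq_right h1, min_eq_right (h1.trans h2)]

theorem cap_le (n b : ℕ) (k : ℕ) : (fun s => min (s * b) (n + 1))^[k] 1 ≤ n + 1 := by
  cases k with
  | zero => simp
  | succ k => rw [Function.iterate_succ_apply']; exact min_le_right _ _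

theorem poly_cap {α : Type} [TEnc α] {n b : α → ℕ} {c : α → List Unit} (hn : Poly n) (hb : Poly b)
    (hc : Poly c) : Poly (fun a => cap (n a) (b a) (c a)) := by
  unfold cap
  have hn1 : Poly (fun a => n a + 1) := by fun_prop
  obtain ⟨q, hq⟩ := hn1.sz_le
  refine Poly.iterLen (F := fun a s => min (s * b a) (n a + 1)) hc (NPC.Poly.const 1) (by fun_prop)
    (2 * q) fun a k _ => ?_
  have h1 := sz_nat_mono_le (cap_le (n a) (b a) k)
  have h2 := hq a
  simp only [Polynomial.eval_mul, Polynomial.eval_ofNat]
  omega

def code (k : ℕ) : Code := (unbits Code (str k)).getD ((T.nil, []), [])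

theorem code_surj (e : Code) : ∃ k, code k = e := by
  obtain ⟨k, _, hk⟩ := str_surj (bits e)
  exact ⟨k, by unfold code; rw [hk, unbits_bits]; rfl⟩

@[fun_prop] theorem poly_code {α : Type} [TEnc α] {k : α → ℕ} (hk : Poly k) :
    Poly (fun a => code (k a)) := by
  unfold code
  have : Poly (fun a => unbits Code (str (k a))) := poly_unbits.comp (poly_str hk)
  fun_prop

/-! ### the construction -/

def gt (h : List Bool) (r : List ℕ) (it : Item) : Bool := !(h.getD it.1.length false) || btest r it

@[fun_prop] theorem poly_gt {α : Type} [TEnc α] {h : α → List Bool} {r : α → List ℕ}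
    {it : α → Item} (hh : Poly h) (hr : Poly r) (hit : Poly it) :
    Poly (fun a => gt (h a) (r a) (it a)) := by
  unfold gt
  fun_prop

def okI (n : ℕ) (x : List Bool) : Bool := (unbits Item x).elim true (small n)
def okH (n : ℕ) (x : List Bool) : Bool := (unbits HInst x).elim true (fun p => p.2.all (small n))
def valG (h : List Bool) (r : List ℕ) (x : List Bool) : Bool :=
  (unbits Item x).elim false (gt h r)
def valS (r : List ℕ) (x : List Bool) : Bool := (unbits Item x).elim false (btest r)
def valH (h : List Bool) (r : List ℕ) (x : List Bool) : Bool :=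
  (unbits HInst x).elim false (fun p => p.1 && p.2.all (gt h r))

section
variable {α : Type} [TEnc α]

@[fun_prop] theorem poly_okI {n : α → ℕ} {x : α → List Bool} (hn : Poly n) (hx : Poly x) :
    Poly (fun a => okI (n a) (x a)) := by
  unfold okI
  have : Poly (fun a => unbits Item (x a)) := poly_unbits.comp hx
  fun_prop

@[fun_prop] theorem poly_okH {n : α → ℕ} {x : α → List Bool} (hn : Poly n) (hx : Poly x) :
    Poly (fun a => okH (n a) (x a)) := by
  unfold okH
  have : Poly (fun a => unbits HInst (x a)) := poly_unbits.comp hx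
  fun_prop

@[fun_prop] theorem poly_valG {h : α → List Bool} {r : α → List ℕ} {x : α → List Bool}
    (hh : Poly h) (hr : Poly r) (hx : Poly x) : Poly (fun a => valG (h a) (r a) (x a)) := by
  unfold valG
  have : Poly (fun a => unbits Item (x a)) := poly_unbits.comp hx
  fun_prop

@[fun_prop] theorem poly_valS {r : α → List ℕ} {x : α → List Bool}
    (hr : Poly r) (hx : Poly x) : Poly (fun a => valS (r a) (x a)) := by
  unfold valS
  have : Poly (fun a => unbits Item (x a)) := poly_unbits.comp hx
  fun_prop

@[fun_prop] theorem poly_valH {h : α → List Bool} {r : α → List ℕ} {x : α → List Bool}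
    (hh : Poly h) (hr : Poly r) (hx : Poly x) : Poly (fun a => valH (h a) (r a) (x a)) := by
  unfold valH
  have : Poly (fun a => unbits HInst (x a)) := poly_unbits.comp hx
  fun_prop

end

/-- the run with budget `|h|` -/
def runB (n : ℕ) (e : Code) (x : List Bool) : List Bool :=
  (U e.1 x (cap n (x.length + 2) e.2)).getD []

/-- does `x` witness a disagreement at stage `j`? -/
def wit (j : ℕ) (h : List Bool) (x : List Bool) : Bool :=
  decide (cap h.length (x.length + 2) (code (j / 2)).2 ≤ h.length) &&
    (if j % 2 = 0 then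
      okI h.length x && (decide (runB h.length (code (j / 2)) x = [true]) ^^
        valG h (List.range h.length) x)
    else okI h.length x && okH h.length (runB h.length (code (j / 2)) x) &&
      (valS (List.range h.length) x ^^
        valH h (List.range h.length) (runB h.length (code (j / 2)) x)))

def found (j : ℕ) (h : List Bool) : Bool := (List.range h.length).any (fun k => wit j h (str k))

def stp (s : ℕ × List Bool) : ℕ × List Bool :=
  (if found s.1 s.2 = true then s.1 + 1 else s.1, s.2 ++ [decide (s.1 % 2 = 0)])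

def stt (n : ℕ) : ℕ × List Bool := stp^[n] (0, [])

/-- the hole function -/
def ff (n : ℕ) : Bool := decide ((stt n).1 % 2 = 0)

theorem poly_wit : Poly (fun p : ℕ × List Bool × List Bool => wit p.1 p.2.1 p.2.2) := by
  have hc : Poly (fun p : ℕ × List Bool × List Bool =>
      cap p.2.1.length (p.2.2.length + 2) (code (p.1 / 2)).2) :=
    poly_cap (by fun_prop) (by fun_prop) (by fun_prop)
  have hcu : UPoly (fun p : ℕ × List Bool × List Bool =>
      cap p.2.1.length (p.2.2.length + 2) (code (p.1 / 2)).2) :=
    UPoly.of_le hc ((UPoly.length (l := fun p : ℕ × List Bool × List Bool => p.2.1)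
      (by fun_prop)).add (UPoly.const 1)) fun p => cap_le _ _ _
  have hr : Poly (fun p : ℕ × List Bool × List Bool =>
      runB p.2.1.length (code (p.1 / 2)) p.2.2) := by
    unfold runB
    have := poly_U' (e := fun p : ℕ × List Bool × List Bool => (code (p.1 / 2)).1)
      (x := fun p => p.2.2) (by fun_prop) (by fun_prop) hcu
    fun_prop
  have hrg : Poly (fun p : ℕ × List Bool × List Bool => List.range p.2.1.length) :=
    Poly.range_length (by fun_prop)
  unfold wit
  fun_prop

theorem poly_stp : Poly stp := by
  have h1 : Poly (fun s : ℕ × List Bool => found s.1 s.2) := by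
    unfold found
    refine Poly.any (p := fun (s : ℕ × List Bool) k => wit s.1 s.2 (str k))
      (Poly.range_length (by fun_prop)) ?_
    exact poly_wit.comp (f := fun p : (ℕ × List Bool) × ℕ => (p.1.1, p.1.2, str p.2))
      (by fun_prop)
  unfold stp
  fun_prop

theorem stt_succ (n : ℕ) : stt (n + 1) = stp (stt n) := Function.iterate_succ_apply' _ _ _

theorem stt_hist (n : ℕ) : (stt n).2 = (List.range n).map ff := by
  induction n with
  | zero => rfl
  | succ n ih =>
    rw [stt_succ, List.range_succ, List.map_append, ← ih]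
    rfl

theorem stt_len (n : ℕ) : (stt n).2.length = n := by rw [stt_hist]; simp

theorem stt_getD {n m : ℕ} (h : m < n) : (stt n).2.getD m false = ff m := by
  rw [stt_hist, List.getD_eq_getElem?_getD, List.getElem?_map, List.getElem?_range h]
  rfl

theorem stt_le (n : ℕ) : (stt n).1 ≤ n := by
  induction n with
  | zero => exact le_rfl
  | succ n ih =>
    rw [stt_succ]
    unfold stp
    simp only
    split_ifs <;> omega

theorem poly_ff : Poly (fun x : List Bool => ff x.length) := by
  have h1 : Poly (fun x : List Bool => stt x.length) := by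
    unfold stt
    refine Poly.iterLen (F := fun _ => stp) Poly.id (NPC.Poly.const _) (poly_stp.comp (by fun_prop))
      (8 * Polynomial.X + 3) fun x k hk => ?_
    change sz (stt k) ≤ _
    have h1 : sz (stt k) = sz (stt k).1 + sz (stt k).2 + 1 := sz_pair _ _
    have h2 := sz_nat_le (stt k).1
    have h3 := sz_listBool_le (stt k).2
    have h4 := Poly.size_le_self (stt k).1
    have h5 := stt_le k
    have h6 := stt_len k
    have h7 := length_lt_sz x
    simp only [Polynomial.eval_add, Polynomial.eval_mul, Polynomial.eval_X, Polynomial.eval_ofNat]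
    omega
  unfold ff
  fun_prop

/-! ### correctness -/

theorem gt_iff {n : ℕ} {it : Item} (h : small n it = true) :
    gt (stt n).2 (List.range n) it = true ↔ G ff it := by
  have h1 : it.1.length < n := by
    have := (small_iff _ _).1 h
    have := Nat.lt_two_pow_self (n := it.1.length + 1)
    omega
  unfold gt G
  rw [stt_getD h1, Bool.or_eq_true, btest_iff h]
  cases ff it.1.length <;> simp

theorem valG_iff {n : ℕ} {x : List Bool} (h : okI n x = true) :
    valG (stt n).2 (List.range n) x = true ↔ x ∈ lang (G ff) := by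
  rw [mem_lang_iff]
  unfold valG
  unfold okI at h
  cases hx : unbits Item x with
  | none => simp
  | some it =>
    rw [hx] at h
    simp only [Option.elim_some, Option.some.injEq, exists_eq_left'] at h ⊢
    exact gt_iff h

theorem valS_iff {n : ℕ} {x : List Bool} (h : okI n x = true) :
    valS (List.range n) x = true ↔ x ∈ lang SB := by
  rw [mem_lang_iff]
  unfold valS
  unfold okI at h
  cases hx : unbits Item x with
  | none => simp
  | some it =>
    rw [hx] at h
    simp only [Option.elim_some, Option.some.injEq, exists_eq_left'] at h ⊢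
    exact btest_iff h

theorem valH_iff {n : ℕ} {x : List Bool} (h : okH n x = true) :
    valH (stt n).2 (List.range n) x = true ↔ x ∈ lang (H ff) := by
  rw [mem_lang_iff]
  unfold valH
  unfold okH at h
  cases hx : unbits HInst x with
  | none => simp
  | some p =>
    rw [hx] at h
    simp only [Option.elim_some, Option.some.injEq, exists_eq_left', Bool.and_eq_true,
      List.all_eq_true] at h ⊢
    unfold H
    exact and_congr_right fun _ => forall₂_congr fun it hit => gt_iff (h it hit)

/-- the disagreement at stage `j` -/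
def Dis (j : ℕ) (x : List Bool) : Prop :=
  if j % 2 = 0 then ¬ (run (code (j / 2)) x = [true] ↔ x ∈ lang (G ff))
  else ¬ (x ∈ lang SB ↔ run (code (j / 2)) x ∈ lang (H ff))

theorem cap_eq (n : ℕ) (x : List Bool) (c : List Unit) :
    cap n (x.length + 2) c = min ((x.length + 2) ^ c.length) (n + 1) :=
  cap_aux _ _ (by omega) _

theorem runB_eq {n : ℕ} {e : Code} {x : List Bool} (h : cap n (x.length + 2) e.2 ≤ n) :
    runB n e x = run e x := by
  unfold runB run
  rw [cap_eq] at h ⊢
  rw [min_eq_left (by omega)]

theorem xor_iff {a b : Bool} {p q : Prop} (ha : a = true ↔ p) (hb : b = true ↔ q) :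
    (a ^^ b) = true ↔ ¬ (p ↔ q) := by
  rw [← ha, ← hb]
  cases a <;> cases b <;> simp

theorem wit_sound {j n : ℕ} {x : List Bool} (h : wit j (stt n).2 x = true) : Dis j x := by
  unfold wit at h
  rw [stt_len, Bool.and_eq_true, decide_eq_true_eq] at h
  obtain ⟨h1, h2⟩ := h
  rw [runB_eq h1] at h2
  unfold Dis
  split_ifs at h2 ⊢ with hj
  · rw [Bool.and_eq_true] at h2
    exact (xor_iff (decide_eq_true_iff) (valG_iff h2.1)).1 h2.2
  · rw [Bool.and_eq_true, Bool.and_eq_true] at h2
    exact (xor_iff (valS_iff h2.1.1) (valH_iff h2.1.2)).1 h2.2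

theorem okI_ev (x : List Bool) : ∃ m, ∀ n, m ≤ n → okI n x = true := by
  unfold okI
  cases unbits Item x with
  | none => exact ⟨0, fun _ _ => rfl⟩
  | some it => exact ⟨2 ^ (it.1.length + 1), fun n hn => (small_iff _ _).2 hn⟩

theorem okH_ev (x : List Bool) : ∃ m, ∀ n, m ≤ n → okH n x = true := by
  unfold okH
  cases unbits HInst x with
  | none => exact ⟨0, fun _ _ => rfl⟩
  | some p =>
    refine ⟨(p.2.map (fun it => 2 ^ (it.1.length + 1))).sum, fun n hn => ?_⟩
    simp only [Option.elim_some, List.all_eq_true]
    intro it hit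
    rw [small_iff]
    exact (List.single_le_sum (fun _ _ => Nat.zero_le _) _
      (List.mem_map.2 ⟨it, hit, rfl⟩)).trans hn

theorem found_ev {j : ℕ} {x : List Bool} (h : Dis j x) :
    ∃ m, ∀ n, m ≤ n → found j (stt n).2 = true := by
  obtain ⟨k, _, hk⟩ := str_surj x
  obtain ⟨m1, h1⟩ := okI_ev x
  obtain ⟨m2, h2⟩ := okH_ev (run (code (j / 2)) x)
  refine ⟨k + 1 + m1 + m2 + (x.length + 2) ^ (code (j / 2)).2.length, fun n hn => ?_⟩
  unfold found
  rw [List.any_eq_true]
  refine ⟨k, by rw [stt_len]; exact List.mem_range.2 (by omega), ?_⟩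
  rw [hk]
  have hc : cap n (x.length + 2) (code (j / 2)).2 ≤ n := by
    rw [cap_eq]; exact (min_le_left _ _).trans (by omega)
  unfold wit
  rw [stt_len, Bool.and_eq_true, decide_eq_true_eq, runB_eq hc]
  refine ⟨hc, ?_⟩
  unfold Dis at h
  split_ifs at h ⊢ with hj
  · rw [Bool.and_eq_true]
    exact ⟨h1 n (by omega), (xor_iff (decide_eq_true_iff) (valG_iff (h1 n (by omega)))).2 h⟩
  · rw [Bool.and_eq_true, Bool.and_eq_true]
    exact ⟨⟨h1 n (by omega), h2 n (by omega)⟩,
      (xor_iff (valS_iff (h1 n (by omega))) (valH_iff (h2 n (by omega)))).2 h⟩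

theorem SB_notP (hP : ¬ ∀ L, InNP L → InP L) : ¬ InPP SB :=
  fun h => hP (NPHard.collapse SB_hard h)

/-- no stage lasts for ever -/
theorem not_stuck (hP : ¬ ∀ L, InNP L → InP L) {j n0 : ℕ} (h : ∀ n, n0 ≤ n → (stt n).1 = j) :
    False := by
  have hno : ∀ x, ¬ Dis j x := by
    intro x hx
    obtain ⟨m, hm⟩ := found_ev hx
    have h1 := h (m + n0) (by omega)
    have h2 := h (m + n0 + 1) (by omega)
    rw [stt_succ] at h2
    unfold stp at h2
    simp only at h2
    rw [h1, hm _ (by omega)] at h2
    simp at h2
  apply SB_notP hP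
  by_cases hj : j % 2 = 0
  · have hG : InPP (G ff) := by
      refine ⟨fun x => [decide (run (code (j / 2)) x = [true])], polyTime_of_poly ?_, fun x => ?_⟩
      · have := poly_run (code (j / 2))
        fun_prop
      · have := hno x
        unfold Dis at this
        rw [if_pos hj, not_not] at this
        rw [← this]
        simp
    refine hG.of_poly (f := fun it : Item => ((it.1 ++ List.replicate n0 (),
      it.2.filter (fun c => decide (c.1.2 < it.1.length) && decide (c.2.1.2 < it.1.length) &&
        decide (c.2.2.2 < it.1.length))) : Item)) (by fun_prop) fun it => ?_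
    have hf : ff (it.1 ++ List.replicate n0 ()).length = true := by
      unfold ff
      rw [h _ (by simp)]
      simpa using hj
    unfold G
    simp only [hf, true_implies]
    constructor
    · rintro ⟨τ, hτ⟩
      refine ⟨τ, fun c hc _ _ _ => ?_⟩
      simp only [List.mem_filter, Bool.and_eq_true, decide_eq_true_eq] at hc
      exact hτ c hc.1 hc.2.1.1 hc.2.1.2 hc.2.2
    · rintro ⟨τ, hτ⟩
      refine ⟨τ, fun c hc h1 h2 h3 => ?_⟩
      refine hτ c ?_ ?_ ?_ ?_
      · simp only [List.mem_filter, Bool.and_eq_true, decide_eq_true_eq]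
        exact ⟨hc, ⟨h1, h2⟩, h3⟩
      all_goals simp; omega
  · have hH : InPP (H ff) := by
      refine inPP_of (d := fun p : HInst => p.1 && p.2.all
        (gt (stt n0).2 (List.range (2 ^ (n0 + 1))))) (by fun_prop) fun p => ?_
      unfold H
      rw [Bool.and_eq_true, List.all_eq_true]
      refine and_congr_right fun _ => forall₂_congr fun it _ => ?_
      unfold gt G
      by_cases hl : it.1.length < n0
      · rw [stt_getD hl, Bool.or_eq_true, btest_iff ((small_iff _ _).2
          (Nat.pow_le_pow_right (by omega) (by omega)))]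
        cases ff it.1.length <;> simp
      · have e1 : ff it.1.length = false := by
          unfold ff
          rw [h _ (by omega)]
          simpa using hj
        have e2 : (stt n0).2.getD it.1.length false = false :=
          List.getD_eq_default _ _ (by rw [stt_len]; omega)
        rw [e1, e2]
        simp
    refine InP.of_reduces (L' := lang (H ff)) ⟨run (code (j / 2)), ?_, fun x => ?_⟩ hH
    · obtain ⟨e, he⟩ : ∃ e, e = code (j / 2) := ⟨_, rfl⟩
      rw [← he]
      exact PC.toPolyTime (R591.raw (poly_run e))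
    · have := hno x
      unfold Dis at this
      rwa [if_neg hj, not_not] at this

theorem stage_left (hP : ¬ ∀ L, InNP L → InP L) (j : ℕ) : ∃ x, Dis j x := by
  have hstep : ∀ n, (stt (n + 1)).1 = (stt n).1 ∨
      ((stt (n + 1)).1 = (stt n).1 + 1 ∧ found (stt n).1 (stt n).2 = true) := by
    intro n
    rw [stt_succ]
    unfold stp
    simp only
    split_ifs with h
    · exact Or.inr ⟨rfl, h⟩
    · exact Or.inl rfl
  have hleave : ∀ j n0, (stt n0).1 = j → ∃ n, (stt n).1 = j ∧ (stt (n + 1)).1 = j + 1 ∧
      found j (stt n).2 = true := by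
    intro j n0 h0
    by_contra hc
    push Not at hc
    refine not_stuck hP (j := j) (n0 := n0) fun n hn => ?_
    induction n, hn using Nat.le_induction with
    | base => exact h0
    | succ n _ ih =>
      rcases hstep n with h | h
      · rw [h, ih]
      · rw [ih] at h
        exact absurd h.2 (hc n ih h.1)
  have hreach : ∀ j, ∃ n, (stt n).1 = j := by
    intro j
    induction j with
    | zero => exact ⟨0, rfl⟩
    | succ j ih =>
      obtain ⟨n0, h0⟩ := ih
      obtain ⟨n, _, h, _⟩ := hleave j n0 h0
      exact ⟨n + 1, h⟩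
  obtain ⟨n0, h0⟩ := hreach j
  obtain ⟨n, _, _, h⟩ := hleave j n0 h0
  unfold found at h
  rw [List.any_eq_true] at h
  obtain ⟨k, _, hk⟩ := h
  exact ⟨_, wit_sound hk⟩

theorem G_notP (hP : ¬ ∀ L, InNP L → InP L) : ¬ InPP (G ff) := by
  rintro ⟨V, hV, h⟩
  obtain ⟨e, he⟩ := run_complete hV
  obtain ⟨k, rfl⟩ := code_surj e
  obtain ⟨x, hx⟩ := stage_left hP (2 * k)
  unfold Dis at hx
  rw [if_pos (by omega), show 2 * k / 2 = k by omega, he] at hx
  exact hx (h x).symm

theorem H_notHard (hP : ¬ ∀ L, InNP L → InP L) : ¬ NPHardP (H ff) := by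
  intro hh
  obtain ⟨V, hV, h⟩ := hh _ SB_np
  obtain ⟨e, he⟩ := run_complete hV
  obtain ⟨k, rfl⟩ := code_surj e
  obtain ⟨x, hx⟩ := stage_left hP (2 * k + 1)
  unfold Dis at hx
  rw [if_neg (by omega), show (2 * k + 1) / 2 = k by omega, he] at hx
  exact hx (h x)

end Pool.Agent.H374Z.FB
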