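import Pool.Agent.H374Z.FB.Tmpl
import Pool.Agent.H374Z.FB.Lad

/-!
# Computing depths and space-time diagrams
-/

namespace Pool.Agent.H374Z.FB

open Pool.Agent.NPC

instance tencFin (G : ℕ) : TEnc (Fin G) := ⟨fun a => toT a.val, fun _ _ h => Fin.ext (TEnc.inj h)⟩

abbrev Facts : Type := List (ℕ × List ℕ)

def nxt (F : Facts) (cur : List ℕ) : List ℕ :=
  (F.filter (fun f => decide (f.1 = 0) && decide (f.2.length = 2) &&
    decide (f.2.getD 0 0 ∈ cur))).map (fun f => f.2.getD 1 0)

theorem mem_nxt {F : Facts} {cur : List ℕ} {y : ℕ} :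
    y ∈ nxt F cur ↔ ∃ x ∈ cur, rS (fr F) x y := by
  unfold nxt rS fr
  simp only [List.mem_map, List.mem_filter, Bool.and_eq_true, decide_eq_true_eq]
  constructor
  · rintro ⟨⟨k, t⟩, ⟨h1, ⟨h2, h3⟩, h4⟩, h5⟩
    obtain ⟨a, b, rfl⟩ := List.length_eq_two.1 h3
    simp only at h2 h4 h5
    subst h2
    simp only [List.getD_cons_zero, List.getD_cons_succ] at h4 h5
    subst h5
    exact ⟨a, h4, h1⟩
  · rintro ⟨x, h1, h2⟩
    exact ⟨(0, [x, y]), ⟨h2, ⟨rfl, rfl⟩, h1⟩, rfl⟩

def lay (F : Facts) (i k : ℕ) : List ℕ := (nxt F)^[k] [i]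

theorem mem_lay {F : Facts} {i : ℕ} : ∀ {k x : ℕ}, x ∈ lay F i k ↔ Dp (rS (fr F)) i x k
  | 0, x => by
    unfold lay
    simp only [Function.iterate_zero, id_eq, List.mem_singleton]
    exact ⟨fun h => h ▸ Dp.zero, Dp.eq_zero⟩
  | k + 1, y => by
    unfold lay
    rw [Function.iterate_succ_apply', mem_nxt]
    constructor
    · rintro ⟨x, h1, h2⟩
      exact (mem_lay.1 h1).succ h2
    · intro h
      obtain ⟨x, h1, h2⟩ := h.pred
      exact ⟨x, mem_lay.2 h1, h2⟩

theorem sz_nxt (F : Facts) (cur : List ℕ) : sz (nxt F cur) ≤ sz F := by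
  unfold nxt
  generalize (fun f : ℕ × List ℕ => decide (f.1 = 0) && decide (f.2.length = 2) &&
    decide (f.2.getD 0 0 ∈ cur)) = p
  induction F with
  | nil => simp
  | cons f F ih =>
    have h1 : sz (f.2.getD 1 0) ≤ sz f := by
      have h2 : sz f = sz f.1 + sz f.2 + 1 := sz_pair _ _
      rw [List.getD_eq_getElem?_getD]
      cases h : f.2[1]? with
      | none =>
        have : sz (0 : ℕ) = 1 := rfl
        simp only [Option.getD_none]
        omega
      | some a =>
        have := sz_le_of_mem (List.mem_of_getElem? h)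
        simp only [Option.getD_some]
        omega
    rw [List.filter_cons]
    split_ifs
    · simp only [List.map_cons, sz_list_cons]
      omega
    · simp only [sz_list_cons]
      omega

section
variable {α : Type} [TEnc α]

@[fun_prop] theorem poly_nxt {F : α → Facts} {c : α → List ℕ} (hF : Poly F) (hc : Poly c) :
    Poly (fun a => nxt (F a) (c a)) := by
  unfold nxt
  fun_prop

theorem poly_lay {F : α → Facts} {i k : α → ℕ} (hF : Poly F) (hi : Poly i) (hk : UPoly k) :
    Poly (fun a => lay (F a) (i a) (k a)) := by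
  obtain ⟨q, hq⟩ := hF.sz_le
  obtain ⟨r, hr⟩ := hi.sz_le
  have := Poly.iterLen (F := fun a c => nxt (F a) c) (s := fun a => [i a]) hk (by fun_prop)
    (by fun_prop) (q + r + 2) fun a k _ => by
      have h1 := hq a
      have h2 := hr a
      simp only [Polynomial.eval_add, Polynomial.eval_ofNat]
      cases k with
      | zero =>
        simp only [Function.iterate_zero, id_eq, sz_list_cons, sz_list_nil]
        omega
      | succ k =>
        rw [Function.iterate_succ_apply']
        have := sz_nxt (F a) ((fun c => nxt (F a) c)^[k] [i a])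
        omega
  refine this.congr fun a => ?_
  simp [lay]

theorem uPoly_len {F : α → Facts} (hF : Poly F) : UPoly (fun a => (F a).length + 1) :=
  (UPoly.length hF).add (UPoly.const 1)

theorem uPoly_min {m n : α → ℕ} (hm : Poly m) (hn : UPoly n) : UPoly (fun a => min (m a) (n a)) :=
  UPoly.of_le (Poly.min hm hn.toPoly) hn fun _ => min_le_right _ _

end

/-- the list of pairs (node, depth) -/
def dl (F : Facts) (i : ℕ) : List (ℕ × ℕ) :=
  (List.range (F.length + 1)).flatMap (fun a =>
    (lay F i (min a (F.length + 1))).map (fun x => (x, a)))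

theorem mem_dl {F : Facts} {i x a : ℕ} :
    (x, a) ∈ dl F i ↔ a < F.length + 1 ∧ Dp (rS (fr F)) i x a := by
  unfold dl
  simp only [List.mem_flatMap, List.mem_range, List.mem_map, Prod.mk.injEq]
  constructor
  · rintro ⟨b, h1, y, h2, rfl, rfl⟩
    rw [min_eq_left h1.le] at h2
    exact ⟨h1, mem_lay.1 h2⟩
  · rintro ⟨h1, h2⟩
    exact ⟨a, h1, x, by rw [min_eq_left h1.le]; exact mem_lay.2 h2, rfl, rfl⟩

@[fun_prop] theorem poly_dl {α : Type} [TEnc α] {F : α → Facts} {i : α → ℕ} (hF : Poly F)
    (hi : Poly i) : Poly (fun a => dl (F a) (i a)) := by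
  unfold dl
  refine Poly.flatMap (F := fun a b => (lay (F a) (i a) (min b ((F a).length + 1))).map
    (fun x => (x, b))) (uPoly_len hF).range ?_
  have : Poly (fun p : α × ℕ => lay (F p.1) (i p.1) (min p.2 ((F p.1).length + 1))) :=
    poly_lay (by fun_prop) (by fun_prop) (uPoly_min (by fun_prop) (uPoly_len (by fun_prop)))
  fun_prop

theorem depth_lt {F : Facts} {i : ℕ}
    (hu : ∀ x a b, Dp (rS (fr F)) i x a → Dp (rS (fr F)) i x b → a = b) {z a : ℕ}
    (hz : Dp (rS (fr F)) i z a) : a < F.length + 1 := by
  classical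
  by_contra hc
  have h1 : ∀ b, b < F.length + 1 → ∃ x, Dp (rS (fr F)) i x (b + 1) :=
    fun b hb => hz.down _ (by omega)
  choose! g hg using h1
  have h2 := Finset.card_le_card_of_injOn (s := Finset.range (F.length + 1))
    (t := (F.map (fun f => f.2.getD 1 0)).toFinset) g ?_ ?_
  · have h3 := List.toFinset_card_le (F.map (fun f => f.2.getD 1 0))
    simp only [Finset.card_range, List.length_map] at h2 h3
    omega
  · intro b hb
    obtain ⟨x, _, hx⟩ := (hg b (by simpa using hb)).pred
    simp only [List.coe_toFinset, List.mem_map, Set.mem_ofPred_eq]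
    exact ⟨_, hx, rfl⟩
  · intro b hb c hc h
    have h3 := hg b (by simpa using hb)
    have h4 := hg c (by simpa using hc)
    rw [h] at h3
    have := hu _ _ _ h3 h4
    omega

/-! ### rows -/

variable {G : ℕ} (M : CA (Fin G))

def rstep (r : List (Fin G)) : List (Fin G) :=
  (List.range r.length).map (fun b => if b = 0 then
    M.d0 (r.getD 0 (M.ini false)) (r.getD 1 (M.ini false))
    else M.d (r.getD 0 (M.ini false)) (r.getD (b - 1) (M.ini false)) (r.getD b (M.ini false))
      (r.getD (b + 1) (M.ini false)))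

def row (n W a : ℕ) : List (Fin G) :=
  (rstep M)^[a] ((List.range W).map (fun b => M.ini (decide (b < n))))

theorem row_len (n W a : ℕ) : (row M n W a).length = W := by
  induction a with
  | zero => simp [row]
  | succ a ih =>
    unfold row at ih ⊢
    rw [Function.iterate_succ_apply', rstep, List.length_map, List.length_range, ih]

theorem row_getD (n W : ℕ) : ∀ a b, a + b < W → (row M n W a).getD b (M.ini false) = M.tab n a b
  | 0, b, h => by
    simp only [row, Function.iterate_zero, id_eq, CA.tab]
    rw [List.getD_eq_getElem?_getD, List.getElem?_map, List.getElem?_range (by omega)]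
    rfl
  | a + 1, b, h => by
    have e : row M n W (a + 1) = rstep M (row M n W a) := Function.iterate_succ_apply' _ _ _
    rw [e, rstep, row_len, List.getD_eq_getElem?_getD, List.getElem?_map,
      List.getElem?_range (by omega)]
    simp only [Option.map_some, Option.getD_some]
    cases b with
    | zero =>
      rw [if_pos rfl, row_getD n W a 0 (by omega), row_getD n W a 1 (by omega), CA.tab]
    | succ b =>
      rw [if_neg (by omega), Nat.add_sub_cancel, row_getD n W a 0 (by omega),
        row_getD n W a b (by omega), row_getD n W a (b + 1) (by omega),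
        row_getD n W a (b + 1 + 1) (by omega), CA.tab]

def tabc (n W a b : ℕ) : Fin G := (row M n W (min a W)).getD b (M.ini false)

theorem tabc_eq {n W a b : ℕ} (h : a + b < W) : tabc M n W a b = M.tab n a b := by
  unfold tabc
  rw [min_eq_left (by omega), row_getD M n W a b h]

section
variable {α : Type} [TEnc α]

@[fun_prop] theorem poly_ini {b : α → Bool} (hb : Poly b) : Poly (fun a => M.ini (b a)) :=
  (CL.polyOfFintype M.ini).comp hb

@[fun_prop] theorem poly_acc {b : α → Fin G} (hb : Poly b) : Poly (fun a => M.acc (b a)) :=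
  (CL.polyOfFintype M.acc).comp hb

@[fun_prop] theorem poly_d0 {x y : α → Fin G} (hx : Poly x) (hy : Poly y) :
    Poly (fun a => M.d0 (x a) (y a)) :=
  (CL.polyOfFintype (fun p : Fin G × Fin G => M.d0 p.1 p.2)).comp (hx.pair hy)

@[fun_prop] theorem poly_d {x y z w : α → Fin G} (hx : Poly x) (hy : Poly y) (hz : Poly z)
    (hw : Poly w) : Poly (fun a => M.d (x a) (y a) (z a) (w a)) :=
  (CL.polyOfFintype (fun p : Fin G × Fin G × Fin G × Fin G => M.d p.1 p.2.1 p.2.2.1 p.2.2.2)).comp
    (hx.pair (hy.pair (hz.pair hw)))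

theorem poly_val {x : α → Fin G} (hx : Poly x) : Poly (fun a => (x a).val) := hx

theorem poly_rstep : Poly (rstep M) := by
  unfold rstep
  have : Poly (fun r : List (Fin G) => List.range r.length) := Poly.range_length Poly.id
  fun_prop

theorem poly_row {n W k : α → ℕ} (hn : Poly n) (hW : UPoly W) (hk : UPoly k) :
    Poly (fun a => row M (n a) (W a) (k a)) := by
  obtain ⟨q, hq⟩ := Poly.sz_le hW
  have h0 := hW.range
  have := Poly.iterLen (F := fun _ c => rstep M c)
    (s := fun a => (List.range (W a)).map (fun b => M.ini (decide (b < n a)))) hk (by fun_prop)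
    ((poly_rstep M).comp (by fun_prop)) (q * Polynomial.C (4 * G + 2) + 1) fun a k _ => by
      have h1 := hq a
      have h2 := length_lt_sz (List.replicate (W a) ())
      have h3 := sz_le_length_mul (row M (n a) (W a) k) (4 * G + 1) fun g _ => by
        have h4 : sz g = sz g.val := rfl
        have h5 := sz_nat_le g.val
        have h6 := Poly.size_le_self g.val
        have h7 := g.2
        omega
      rw [row_len] at h3
      rw [List.length_replicate] at h2
      simp only [Polynomial.eval_add, Polynomial.eval_mul, Polynomial.eval_C, Polynomial.eval_one]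
      change sz (row M (n a) (W a) k) ≤ _
      have h4 : W a * (4 * G + 1 + 1) ≤ q.eval (sz a) * (4 * G + 2) :=
        Nat.mul_le_mul_right _ (by omega)
      omega
  refine this.congr fun a => ?_
  simp [row]

theorem poly_tabc {n W x y : α → ℕ} (hn : Poly n) (hW : UPoly W) (hx : Poly x) (hy : Poly y) :
    Poly (fun a => tabc M (n a) (W a) (x a) (y a)) := by
  unfold tabc
  have := poly_row M hn hW (uPoly_min hx hW)
  fun_prop

end

end Pool.Agent.H374Z.FB
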