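import Pool.Agent.NPC.Dec
import Pool.Agent.H591R2.RawOut

/-!
# Cellular automata (with a broadcast from the first cell) for polynomial-time unary predicates
-/

namespace Pool.Agent.H374Z.FB

open Pool.Agent.NPC
open Function (update)

/-- one-dimensional cellular automata on a half line; every cell also sees the first cell -/
structure CA (Γ : Type) where
  ini : Bool → Γ
  d0 : Γ → Γ → Γ
  d : Γ → Γ → Γ → Γ → Γ
  acc : Γ → Bool

/-- the space-time diagram on the unary input `n` -/
def CA.tab {Γ : Type} (M : CA Γ) (n : ℕ) : ℕ → ℕ → Γ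
  | 0, b => M.ini (decide (b < n))
  | a + 1, 0 => M.d0 (M.tab n a 0) (M.tab n a 1)
  | a + 1, b + 1 => M.d (M.tab n a 0) (M.tab n a b) (M.tab n a (b + 1)) (M.tab n a (b + 2))

/-- transport along a bijection of the alphabet -/
def CA.map {Γ Δ : Type} (M : CA Γ) (e : Γ ≃ Δ) : CA Δ where
  ini b := e (M.ini b)
  d0 x y := e (M.d0 (e.symm x) (e.symm y))
  d x y z w := e (M.d (e.symm x) (e.symm y) (e.symm z) (e.symm w))
  acc x := M.acc (e.symm x)

theorem CA.tab_map {Γ Δ : Type} (M : CA Γ) (e : Γ ≃ Δ) (n : ℕ) :
    ∀ a b, (M.map e).tab n a b = e (M.tab n a b)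
  | 0, _ => rfl
  | a + 1, 0 => by
    simp only [CA.tab, CA.tab_map M e n a]
    simp [CA.map]
  | a + 1, b + 1 => by
    simp only [CA.tab, CA.tab_map M e n a]
    simp [CA.map]

/-- flat instructions -/
structure Ins (K L : Type) where
  k : K
  op : Option (Option Bool)
  nxt : Option Bool → L

def appOp : Option (Option Bool) → List Bool → List Bool
  | none, l => l
  | some none, l => l.tail
  | some (some b), l => b :: l

section
variable {K : Type} [DecidableEq K] {L : Type}

def stepM (P : L → Ins K L) (c : L × (K → List Bool)) : L × (K → List Bool) :=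
  ((P c.1).nxt (c.2 (P c.1).k).head?, update c.2 (P c.1).k (appOp (P c.1).op (c.2 (P c.1).k)))

def ins (k0 : K) : (c : Cmd K) → (c.Lbl → L) → L → c.Lbl → Ins K L
  | Cmd.skip, _, exit, _ => ⟨k0, none, fun _ => exit⟩
  | Cmd.push k b, _, exit, _ => ⟨k, some (some b), fun _ => exit⟩
  | Cmd.pop k, _, exit, _ => ⟨k, some none, fun _ => exit⟩
  | Cmd.seq c d, emb, exit, l =>
    Sum.rec (fun l => ins k0 c (fun x => emb (Sum.inl x)) (emb (Sum.inr d.entry)) l)
      (fun l => ins k0 d (fun x => emb (Sum.inr x)) exit l) l
  | Cmd.cases k c₀ cf ct, emb, exit, l =>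
    Option.rec ⟨k, none, fun v => match v with
          | none => emb (some (Sum.inl c₀.entry))
          | some false => emb (some (Sum.inr (Sum.inl cf.entry)))
          | some true => emb (some (Sum.inr (Sum.inr ct.entry)))⟩
      (fun l => Sum.rec (fun l => ins k0 c₀ (fun x => emb (some (Sum.inl x))) exit l)
        (fun l => Sum.rec (fun l => ins k0 cf (fun x => emb (some (Sum.inr (Sum.inl x)))) exit l)
          (fun l => ins k0 ct (fun x => emb (some (Sum.inr (Sum.inr x)))) exit l) l) l) l
  | Cmd.loop k c, emb, exit, l =>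
    Option.rec ⟨k, none, fun v => match v with
          | none => exit
          | some _ => emb (some c.entry)⟩
      (fun l => ins k0 c (fun x => emb (some x)) (emb none) l) l

theorem ins_correct (k0 : K) {c : Cmd K} {s s' : K → List Bool} {t : ℕ} (h : Run c s s' t) :
    ∀ (P : L → Ins K L) (emb : c.Lbl → L) (exit : L),
      (∀ l, P (emb l) = ins k0 c emb exit l) →
      (stepM P)^[t] (emb c.entry, s) = (exit, s') := by
  induction h with
  | skip s =>
    intro P emb exit hP
    simp [stepM, hP, ins, appOp]
  | push s k b =>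
    intro P emb exit hP
    simp [stepM, hP, ins, appOp]
  | pop s k =>
    intro P emb exit hP
    simp [stepM, hP, ins, appOp]
  | @seq c d s s' s'' t t' _ _ ih₁ ih₂ =>
    intro P emb exit hP
    have h₁ := ih₁ P (fun x => emb (Sum.inl x)) (emb (Sum.inr d.entry))
      (fun l => hP (Sum.inl l))
    have h₂ := ih₂ P (fun x => emb (Sum.inr x)) exit (fun l => hP (Sum.inr l))
    rw [add_comm, Function.iterate_add_apply]
    exact (congrArg _ h₁).trans h₂
  | @casesNil k c₀ cf ct s s' t hk _ ih =>
    intro P emb exit hP
    have h₁ := ih P (fun x => emb (some (Sum.inl x))) exit (fun l => hP (some (Sum.inl l)))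
    rw [Function.iterate_succ_apply, ← h₁]
    congr 1
    have : P (emb none) = _ := hP none
    simp [stepM, Cmd.entry, this, ins, hk, appOp]
  | @casesFalse k c₀ cf ct s s' t l hk _ ih =>
    intro P emb exit hP
    have h₁ := ih P (fun x => emb (some (Sum.inr (Sum.inl x)))) exit
      (fun l => hP (some (Sum.inr (Sum.inl l))))
    rw [Function.iterate_succ_apply, ← h₁]
    congr 1
    have : P (emb none) = _ := hP none
    simp [stepM, Cmd.entry, this, ins, hk, appOp]
  | @casesTrue k c₀ cf ct s s' t l hk _ ih =>
    intro P emb exit hP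
    have h₁ := ih P (fun x => emb (some (Sum.inr (Sum.inr x)))) exit
      (fun l => hP (some (Sum.inr (Sum.inr l))))
    rw [Function.iterate_succ_apply, ← h₁]
    congr 1
    have : P (emb none) = _ := hP none
    simp [stepM, Cmd.entry, this, ins, hk, appOp]
  | @loopNil k c s hk =>
    intro P emb exit hP
    have : P (emb none) = _ := hP none
    simp [stepM, Cmd.entry, this, ins, hk, appOp]
  | @loopCons k c s s' s'' t t' hk _ _ ih₁ ih₂ =>
    intro P emb exit hP
    obtain ⟨b, l, hl⟩ := List.exists_cons_of_ne_nil hk
    have h₁ := ih₁ P (fun x => emb (some x)) (emb none) (fun l => hP (some l))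
    have h₂ := ih₂ P emb exit hP
    rw [Function.iterate_succ_apply, add_comm, Function.iterate_add_apply, ← h₂]
    congr 1
    refine Eq.trans ?_ h₁
    congr 1
    have : P (emb none) = _ := hP none
    simp [stepM, Cmd.entry, this, ins, hl, appOp]

/-- the content of a cell -/
def cell (c : L × (K → List Bool)) (b : ℕ) : L × (K → Option Bool) := (c.1, fun k => (c.2 k)[b]?)

/-- the automaton of a flat program -/
def mkCA [DecidableEq L] (P : L → Ins K L) (k0 : K) (l0 exit : L) : CA (L × (K → Option Bool)) where
  ini x := (l0, fun k => if k = k0 ∧ x = true then some true else none)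
  d0 g0 gp := ((P g0.1).nxt (g0.2 (P g0.1).k), update g0.2 (P g0.1).k (match (P g0.1).op with
    | none => g0.2 (P g0.1).k
    | some none => gp.2 (P g0.1).k
    | some (some b) => some b))
  d g0 gm g gp := ((P g0.1).nxt (g0.2 (P g0.1).k), update g.2 (P g0.1).k (match (P g0.1).op with
    | none => g.2 (P g0.1).k
    | some none => gp.2 (P g0.1).k
    | some (some _) => gm.2 (P g0.1).k))
  acc g := decide (g.1 = exit ∧ g.2 k0 = some true)

theorem mkCA_tab [DecidableEq L] (P : L → Ins K L) (k0 : K) (l0 exit : L) (n : ℕ) :
    ∀ a b, (mkCA P k0 l0 exit).tab n a b =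
      cell ((stepM P)^[a] (l0, update (fun _ => []) k0 (List.replicate n true))) b
  | 0, b => by
    simp only [CA.tab, mkCA, cell, Function.iterate_zero, id_eq, Prod.mk.injEq, true_and]
    funext k
    by_cases hk : k = k0
    · subst hk
      simp only [true_and, decide_eq_true_eq, Function.update_self, List.getElem?_replicate]
    · simp [hk]
  | a + 1, 0 => by
    simp only [CA.tab, mkCA_tab P k0 l0 exit n a, Function.iterate_succ_apply']
    generalize (stepM P)^[a] (l0, update (fun _ => []) k0 (List.replicate n true)) = c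
    simp only [mkCA, cell, stepM, Prod.mk.injEq, List.head?_eq_getElem?, true_and]
    funext k
    by_cases hk : k = (P c.1).k
    · subst hk
      simp only [Function.update_self]
      rcases (P c.1).op with _ | _ | b <;> simp [appOp]
    · simp [hk]
  | a + 1, b + 1 => by
    simp only [CA.tab, mkCA_tab P k0 l0 exit n a, Function.iterate_succ_apply']
    generalize (stepM P)^[a] (l0, update (fun _ => []) k0 (List.replicate n true)) = c
    simp only [mkCA, cell, stepM, Prod.mk.injEq, List.head?_eq_getElem?, true_and]
    funext k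
    by_cases hk : k = (P c.1).k
    · subst hk
      simp only [Function.update_self]
      rcases (P c.1).op with _ | _ | b <;> simp [appOp]
    · simp [hk]

end

/-- the automaton `M` decides `f` in time `p` -/
def CA.Dec {Γ : Type} (M : CA Γ) (f : ℕ → Bool) (p : Polynomial ℕ) : Prop :=
  ∀ n, (∀ a, M.acc (M.tab n a 0) = true → f n = true) ∧
    (f n = true → ∃ a, a ≤ p.eval n ∧ M.acc (M.tab n a 0) = true)

theorem exists_CA {f : ℕ → Bool} (hf : Poly (fun x : List Bool => f x.length)) :
    ∃ (G : ℕ) (M : CA (Fin G)) (p : Polynomial ℕ), M.Dec f p := by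
  classical
  have h0 : Poly (fun x : List Bool => [f x.length]) := Poly.cons hf (NPC.Poly.const [])
  obtain ⟨c, p, h⟩ := R591.raw h0
  let c' := c.map (Fin.ofNat (c.bd + 1))
  let P : Option c'.Lbl → Ins (Fin (c.bd + 1)) (Option c'.Lbl) := fun l =>
    Option.rec ⟨0, none, fun _ => none⟩ (fun l => ins 0 c' some none l) l
  have hfix : ∀ s m, (stepM P)^[m] (none, s) = (none, s) := by
    intro s m
    refine Function.iterate_fixed ?_ m
    simp [stepM, P, appOp]
  have key : ∀ n, ∃ t, t ≤ p.eval n ∧ (stepM P)^[t] (some c'.entry,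
      update (fun _ => []) 0 (List.replicate n true)) = (none, update (fun _ => []) 0 [f n]) := by
    intro n
    obtain ⟨t, ht, hr⟩ := h (List.replicate n true)
    have h1 := hr.restrict (n := c.bd) (by omega)
    refine ⟨t, by simpa using ht, ?_⟩
    have h2 := ins_correct 0 h1 P some none (fun l => rfl)
    convert h2 using 2
    · congr 1
      funext i
      by_cases hi : i = 0
      · subst hi; simp [inp]
      · have : (i : ℕ) ≠ 0 := fun h => hi (Fin.ext h)
        simp [inp, hi, this]
    · funext i
      by_cases hi : i = 0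
      · subst hi; simp [inp]
      · have : (i : ℕ) ≠ 0 := fun h => hi (Fin.ext h)
        simp [inp, hi, this]
  let M := mkCA P 0 (some c'.entry) none
  refine ⟨_, M.map (Fintype.equivFin _), p, fun n => ?_⟩
  have hacc : ∀ a, (M.map (Fintype.equivFin _)).acc ((M.map (Fintype.equivFin _)).tab n a 0) =
      M.acc (M.tab n a 0) := by
    intro a
    rw [CA.tab_map]
    simp [CA.map]
  simp only [hacc]
  obtain ⟨t, ht, hk⟩ := key n
  constructor
  · intro a ha
    simp only [M, mkCA_tab] at ha
    simp only [mkCA, cell, decide_eq_true_eq] at ha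
    generalize hc : (stepM P)^[a] (some c'.entry,
      update (fun _ => []) 0 (List.replicate n true)) = cf at ha
    obtain ⟨l, s⟩ := cf
    simp only at ha
    obtain ⟨rfl, h2⟩ := ha
    have e1 : (stepM P)^[t + a] (some c'.entry,
      update (fun _ => []) 0 (List.replicate n true)) = (none, s) := by
      rw [Function.iterate_add_apply, hc, hfix]
    rw [add_comm t a, Function.iterate_add_apply, hk, hfix] at e1
    simp only [Prod.mk.injEq, true_and] at e1
    rw [← e1] at h2
    simpa using h2
  · intro hn
    refine ⟨t, ht, ?_⟩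
    simp only [M, mkCA_tab, hk]
    simp [mkCA, cell, hn]

end Pool.Agent.H374Z.FB
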