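import Pool.Agent.NPC.Classes

/-!
# Relational structures, finite boundedness and constraint satisfaction problems

A finite relational signature is the list `τ` of the arities of its relation symbols: the symbol
number `i` has arity `τ[i]`.
-/

namespace Pool.Agent.H374Z.FB

open Pool.Agent.NPC

/-- A `τ`-structure with domain `A`: `rel i t` says that the tuple `t` lies in the relation
number `i`; such a tuple has the arity of the symbol as its length. -/
structure Str (τ : List ℕ) (A : Type) where
  /-- the relations -/
  rel : ℕ → List A → Prop
  /-- only symbols of the signature are used, with their arities -/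
  wf : ∀ i t, rel i t → τ[i]? = some t.length

/-- `h` is a homomorphism from `B` to `A`. -/
def IsHom {τ : List ℕ} {X Y : Type} (B : Str τ X) (A : Str τ Y) (h : X → Y) : Prop :=
  ∀ i t, B.rel i t → A.rel i (t.map h)

/-- `B` embeds into `A`: some injective map preserves all relations and their complements. -/
def Embeds {τ : List ℕ} {X Y : Type} (B : Str τ X) (A : Str τ Y) : Prop :=
  ∃ h : X → Y, Function.Injective h ∧ ∀ i t, B.rel i t ↔ A.rel i (t.map h)

/-- `A` is finitely bounded: there is a finite set `F` of finite structures such that a finite
structure embeds into `A` if and only if no member of `F` embeds into it. -/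
def FinBounded {τ : List ℕ} {Y : Type} (A : Str τ Y) : Prop :=
  ∃ F : Set (Σ m : ℕ, Str τ (Fin m)), F.Finite ∧
    ∀ (n : ℕ) (B : Str τ (Fin n)), Embeds B A ↔ ∀ C ∈ F, ¬ Embeds C.2 B

/-- Inputs: the size `n` of the domain `{0, …, n - 1}` in unary and the list of all facts
(number of the symbol, tuple). -/
abbrev Inst : Type := List Unit × List (ℕ × List ℕ)

/-- The input `I` describes the finite structure `B`: it lists exactly the facts of `B`. -/
def Codes {τ : List ℕ} (I : Inst) (B : Str τ (Fin I.1.length)) : Prop :=
  ∀ i t, (i, t) ∈ I.2 ↔ ∃ s : List (Fin I.1.length), s.map Fin.val = t ∧ B.rel i s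

/-- The constraint satisfaction problem of `A`, as a language: the codes of the finite structures
that have a homomorphism to `A`. -/
def CSP {τ : List ℕ} {Y : Type} (A : Str τ Y) : Set (List Bool) :=
  lang (fun I : Inst => ∃ B : Str τ (Fin I.1.length), Codes I B ∧ ∃ h, IsHom B A h)

end Pool.Agent.H374Z.FB
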