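import Pool.Agent.H374Z.FB.Red

/-!
# The converse reduction, membership in NP, and the theorem
-/

namespace Pool.Agent.H374Z.FB

open Pool.Agent.NPC Col

variable {K : ℕ}

def bkF (T : ℕ) (it : Item) : Facts :=
  (List.range T).map (fun k => (0, [k, k + 1])) ++ (1, [0, it.1.length]) ::
    (it.2.filter (fun c => decide (c.1.2 < it.1.length) && decide (c.2.1.2 < it.1.length) &&
      decide (c.2.2.2 < it.1.length))).map
      (fun c => (sg c.1.1 c.2.1.1 c.2.2.1, [c.1.2, c.2.1.2, c.2.2.2]))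

def bk (p : Polynomial ℕ) (it : Item) : Inst :=
  (List.replicate (p.eval it.1.length + it.1.length + 1) (),
    bkF (p.eval it.1.length + it.1.length) it)

theorem poly_bk (p : Polynomial ℕ) : Poly (bk p) := by
  have h0 : UPoly (fun it : Item => it.1.length) := UPoly.length (by fun_prop)
  have h1 : UPoly (fun it : Item => p.eval it.1.length + it.1.length) := (h0.eval p).add h0
  have h2 : Poly (fun it : Item => List.replicate (p.eval it.1.length + it.1.length + 1) ()) :=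
    h1.add (UPoly.const 1)
  have h3 := h1.range
  unfold bk bkF
  fun_prop

theorem mem_bkF {T : ℕ} {it : Item} {k : ℕ} {t : List ℕ} : (k, t) ∈ bkF T it ↔
    (k = 0 ∧ ∃ x, x < T ∧ t = [x, x + 1]) ∨ (k = 1 ∧ t = [0, it.1.length]) ∨
      ∃ c ∈ it.2, (c.1.2 < it.1.length ∧ c.2.1.2 < it.1.length ∧ c.2.2.2 < it.1.length) ∧
        k = sg c.1.1 c.2.1.1 c.2.2.1 ∧ t = [c.1.2, c.2.1.2, c.2.2.2] := by
  unfold bkF
  simp only [List.mem_append, List.mem_map, List.mem_range, Prod.mk.injEq, List.mem_cons,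
    List.mem_filter, Bool.and_eq_true, decide_eq_true_eq]
  refine or_congr ?_ (or_congr Iff.rfl ?_)
  · constructor
    · rintro ⟨x, h, rfl, rfl⟩
      exact ⟨rfl, x, h, rfl⟩
    · rintro ⟨rfl, x, h, rfl⟩
      exact ⟨x, h, rfl, rfl⟩
  · constructor
    · rintro ⟨c, ⟨h, ⟨h1, h2⟩, h3⟩, rfl, rfl⟩
      exact ⟨c, h, ⟨h1, h2, h3⟩, rfl, rfl⟩
    · rintro ⟨c, h, ⟨h1, h2, h3⟩, rfl, rfl⟩
      exact ⟨c, ⟨h, ⟨h1, h2⟩, h3⟩, rfl, rfl⟩

theorem bkF_S {T : ℕ} {it : Item} {x y : ℕ} : rS (fr (bkF T it)) x y ↔ x < T ∧ y = x + 1 := by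
  unfold rS fr
  rw [mem_bkF]
  constructor
  · rintro (⟨_, z, h1, h2⟩ | ⟨h, _⟩ | ⟨c, _, _, h, _⟩)
    · simp only [List.cons.injEq, and_true] at h2
      omega
    · omega
    · have := sg_lt c.1.1 c.2.1.1 c.2.2.1
      omega
  · rintro ⟨h, rfl⟩
    exact Or.inl ⟨rfl, x, h, rfl⟩

theorem bkF_N {T : ℕ} {it : Item} {i e x y : ℕ} {c : Col K} : ¬ rN (fr (bkF T it)) i e c x y := by
  unfold rN fr
  rw [mem_bkF]
  rintro (⟨h, _⟩ | ⟨h, _⟩ | ⟨c, _, _, h, _⟩)
  · omega
  · omega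
  · have := sg_lt c.1.1 c.2.1.1 c.2.2.1
    omega

theorem bkF_Dp {T : ℕ} {it : Item} : ∀ {a x : ℕ}, Dp (rS (fr (bkF T it))) 0 x a ↔ x = a ∧ a ≤ T
  | 0, x => ⟨fun h => ⟨h.eq_zero, Nat.zero_le _⟩, fun h => by rw [h.1]; exact Dp.zero⟩
  | a + 1, x => by
    constructor
    · intro h
      obtain ⟨y, h1, h2⟩ := h.pred
      have h3 := bkF_Dp.1 h1
      have h4 := bkF_S.1 h2
      omega
    · rintro ⟨rfl, h⟩
      exact (bkF_Dp.2 ⟨rfl, by omega⟩).succ (bkF_S.2 ⟨by omega, rfl⟩)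

theorem bk_iff {M : CA (Fin K)} {f : ℕ → Bool} {p : Polynomial ℕ} (hM : M.Dec f p) (it : Item) :
    G f it ↔ Csp M (bk p it) := by
  rw [csp_sem]
  unfold bk
  simp only
  generalize hT : p.eval it.1.length + it.1.length = T
  have hn : it.1.length ≤ T := by omega
  constructor
  · intro h
    refine ⟨?_, fun i e hq => ?_⟩
    · rintro ⟨k, t⟩ hf
      simp only [List.length_replicate]
      rcases mem_bkF.1 hf with ⟨rfl, x, h1, rfl⟩ | ⟨rfl, rfl⟩ | ⟨c, _, ⟨h1, h2, h3⟩, rfl, rfl⟩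
      · refine ⟨⟨by omega, rfl⟩, ?_⟩
        simp only [List.mem_cons, List.not_mem_nil, or_false]
        omega
      · refine ⟨⟨by omega, rfl⟩, ?_⟩
        simp only [List.mem_cons, List.not_mem_nil, or_false]
        omega
      · have := sg_lt c.1.1 c.2.1.1 c.2.2.1
        refine ⟨⟨by omega, ?_⟩, ?_⟩
        · unfold ar
          rw [if_neg (by omega), if_pos (by omega)]
          rfl
        · simp only [List.mem_cons, List.not_mem_nil, or_false]
          omega
    · obtain ⟨rfl, rfl⟩ : i = 0 ∧ e = it.1.length := by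
        rcases mem_bkF.1 hq with ⟨h, _⟩ | ⟨_, h⟩ | ⟨c, _, _, h, _⟩
        · omega
        · simpa using h
        · have := sg_lt c.1.1 c.2.1.1 c.2.2.1
          omega
      refine ⟨fun x a b ha hb => ?_, fun _ _ _ _ _ => bkF_N, fun _ _ _ _ _ _ _ => bkF_N,
        fun _ _ _ _ _ _ _ _ _ _ => bkF_N, fun n a z h1 _ h3 => ?_⟩
      · have h1 := bkF_Dp.1 ha
        have h2 := bkF_Dp.1 hb
        omega
      · obtain ⟨rfl, _⟩ := bkF_Dp.1 h1
        obtain ⟨τ, hτ⟩ := h ((hM _).1 a h3)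
        refine ⟨τ, fun _ _ _ h4 => absurd h4 bkF_N, ?_⟩
        intro s1 s2 s3 x y z u v w hC hx hy hz hu hv hw
        obtain ⟨rfl, _⟩ := bkF_Dp.1 hx
        obtain ⟨rfl, _⟩ := bkF_Dp.1 hy
        obtain ⟨rfl, _⟩ := bkF_Dp.1 hz
        have h5 := sg_lt s1 s2 s3
        rcases mem_bkF.1 hC with ⟨h, _⟩ | ⟨h, _⟩ | ⟨c, hc, _, h6, h7⟩
        · omega
        · omega
        · obtain ⟨rfl, rfl, rfl⟩ := sg_inj h6
          simp only [List.cons.injEq, and_true] at h7
          obtain ⟨rfl, rfl, rfl⟩ := h7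
          exact hτ c hc hu hv hw
  · rintro ⟨_, h⟩ hf
    obtain ⟨a, ha, hacc⟩ := (hM _).2 hf
    obtain ⟨τ, _, hτ⟩ := (h 0 it.1.length (mem_bkF.2 (Or.inr (Or.inl ⟨rfl, rfl⟩)))).a4
      it.1.length a a (bkF_Dp.2 ⟨rfl, hn⟩) (bkF_Dp.2 ⟨rfl, by omega⟩) hacc
    refine ⟨τ, fun c hc h1 h2 h3 => ?_⟩
    exact hτ _ _ _ _ _ _ _ _ _ (mem_bkF.2 (Or.inr (Or.inr ⟨c, hc, ⟨h1, h2, h3⟩, rfl, rfl⟩)))
      (bkF_Dp.2 ⟨rfl, by omega⟩) (bkF_Dp.2 ⟨rfl, by omega⟩) (bkF_Dp.2 ⟨rfl, by omega⟩) h1 h2 h3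

/-! ### certificates -/

def verH (f : ℕ → Bool) (p : HInst) (w : List (List Bool)) : Bool :=
  p.1 && p.2.all (fun it => !(f it.1.length) || w.any (fun x => it.2.all (clb it.1.length x)))

theorem poly_verH {f : ℕ → Bool} (hf : Poly (fun x : List Bool => f x.length)) :
    Poly (fun q : HInst × List (List Bool) => verH f q.1 q.2) := by
  have h1 : Poly (fun q : (HInst × List (List Bool)) × Item => f q.2.1.length) :=
    (hf.comp (f := fun q : (HInst × List (List Bool)) × Item => q.2.1.map (fun _ => true))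
      (by fun_prop)).congr fun q => by simp
  unfold verH
  refine Poly.and (by fun_prop) (Poly.all (p := fun (q : HInst × List (List Bool)) (it : Item) =>
    !(f it.1.length) || q.2.any (fun x => it.2.all (clb it.1.length x))) (by fun_prop) ?_)
  exact Poly.or (Poly.not h1) (by fun_prop)

theorem verH_sound {f : ℕ → Bool} {p : HInst} {w : List (List Bool)} (h : verH f p w = true) :
    H f p := by
  simp only [verH, Bool.and_eq_true, List.all_eq_true, Bool.or_eq_true, Bool.not_eq_true',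
    List.any_eq_true] at h
  refine ⟨h.1, fun it hit hf => ?_⟩
  rcases h.2 it hit with h1 | ⟨x, _, hx⟩
  · rw [hf] at h1
    simp at h1
  · exact ⟨_, fun c hc => (clb_iff _ _ _).1 (hx c hc)⟩

theorem verH_complete {f : ℕ → Bool} {p : HInst} (h : H f p) :
    ∃ w, sz w ≤ 4 * sz p ∧ verH f p w = true := by
  have key : ∀ l : List Item, (∀ it ∈ l, G f it) → ∃ w : List (List Bool), sz w ≤ 4 * sz l ∧
      ∀ it ∈ l, f it.1.length = true → ∃ x ∈ w, it.2.all (clb it.1.length x) = true := by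
    intro l
    induction l with
    | nil => exact fun _ => ⟨[], by simp, by simp⟩
    | cons it l ih =>
      intro hl
      obtain ⟨w, h1, h2⟩ := ih fun it hit => hl it (List.mem_cons_of_mem _ hit)
      by_cases hf : f it.1.length = true
      · obtain ⟨x, h3, h4⟩ := (SB_iff it).1 (hl it (by simp) hf)
        refine ⟨x :: w, ?_, fun it' hit' hf' => ?_⟩
        · have h5 := sz_listBool_le x
          have h6 := length_lt_sz it.1
          have h7 : sz it = sz it.1 + sz it.2 + 1 := sz_pair _ _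
          simp only [sz_list_cons]
          omega
        · rcases List.mem_cons.1 hit' with rfl | hit'
          · exact ⟨x, by simp, h4⟩
          · obtain ⟨y, h5, h6⟩ := h2 it' hit' hf'
            exact ⟨y, List.mem_cons_of_mem _ h5, h6⟩
      · refine ⟨w, ?_, fun it' hit' hf' => ?_⟩
        · simp only [sz_list_cons]
          omega
        · rcases List.mem_cons.1 hit' with rfl | hit'
          · exact absurd hf' hf
          · exact h2 it' hit' hf'
  obtain ⟨w, h1, h2⟩ := key p.2 h.2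
  have h3 : sz p = sz p.1 + sz p.2 + 1 := sz_pair _ _
  refine ⟨w, by omega, ?_⟩
  simp only [verH, Bool.and_eq_true, List.all_eq_true, Bool.or_eq_true, Bool.not_eq_true',
    List.any_eq_true]
  refine ⟨h.1, fun it hit => ?_⟩
  cases hf : f it.1.length
  · exact Or.inl rfl
  · obtain ⟨x, h4, h5⟩ := h2 it hit hf
    exact Or.inr ⟨x, h4, List.all_eq_true.1 h5⟩

theorem csp_np {M : CA (Fin K)} {f : ℕ → Bool} {p : Polynomial ℕ} (hM : M.Dec f p)
    (hf : Poly (fun x : List Bool => f x.length)) : InNPP (Csp M) := by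
  obtain ⟨q, hq⟩ := (poly_red M).sz_le
  refine inNPP_of (β := List (List Bool)) (R := fun z => verH f (red M z.1) z.2)
    ((poly_verH hf).comp (f := fun z : Inst × List (List Bool) => (red M z.1, z.2))
      (Poly.pair ((poly_red M).comp (Poly.fst Poly.id)) (Poly.snd Poly.id))) (4 * q) fun I => ?_
  rw [red_iff hM]
  constructor
  · intro h
    obtain ⟨w, h1, h2⟩ := verH_complete h
    refine ⟨w, ?_, h2⟩
    have := hq I
    simp only [Polynomial.eval_mul, Polynomial.eval_ofNat]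
    omega
  · rintro ⟨w, _, h⟩
    exact verH_sound h

theorem main (hP : ¬ ∀ L, InNP L → InP L) : ∃ (τ : List ℕ) (Y : Type) (A : Str τ Y),
    FinBounded A ∧ InNP (CSP A) ∧ ¬ InP (CSP A) ∧ ¬ NPHard (CSP A) := by
  obtain ⟨K, M, p, hM⟩ := exists_CA poly_ff
  refine ⟨sig K, Dom M, Tm M, Tm_finBounded, csp_np hM poly_ff, fun h => ?_, fun h => ?_⟩
  · exact G_notP hP (InPP.of_poly (Q := Csp M) h (poly_bk p) (bk_iff hM))
  · exact H_notHard hP (NPHardP.of_poly (P := Csp M) h (poly_red M) (red_iff hM))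

end Pool.Agent.H374Z.FB
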