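import Pool.Agent.H374Z.FB.Alg

/-!
# The reduction of the constraint satisfaction problem to satisfiability with holes
-/

namespace Pool.Agent.H374Z.FB

open Pool.Agent.NPC Col

variable {K : ℕ} (M : CA (Fin K))

def chkU (P : List (ℕ × ℕ)) : Bool :=
  P.all (fun p => P.all (fun q => !decide (p.1 = q.1) || decide (p.2 = q.2)))

def chk1 (F : Facts) (P : List (ℕ × ℕ)) (i e : ℕ) : Bool :=
  P.all (fun p => P.all (fun q => !decide (p.2 = q.2) || !decide ((10, [i, e, p.1, q.1]) ∈ F)))

def chk2 (F : Facts) (P : List (ℕ × ℕ)) (i e : ℕ) : Bool :=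
  P.all (fun p => P.all (fun q => !decide (p.2 < q.2) || !decide ((11, [i, e, p.1, q.1]) ∈ F)))

def bad3 (F : Facts) (i e n : ℕ) (p q : ℕ × ℕ) : Bool :=
  decide ((10 + (4 + (tabc M n (F.length + 1) p.2 q.2).val), [i, e, p.1, q.1]) ∈ F)

def chk3 (F : Facts) (P : List (ℕ × ℕ)) (i e : ℕ) : Bool :=
  P.all (fun r => !decide (r.1 = e) || P.all (fun p => P.all (fun q => P.all (fun z =>
    !decide (z.2 = p.2 + q.2) || !bad3 M F i e r.2 p q))))

def act (F : Facts) (P : List (ℕ × ℕ)) (n : ℕ) : Bool :=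
  P.any (fun z => M.acc (tabc M n (F.length + 1) z.2 0))

def signs : List (Bool × Bool × Bool) :=
  [(false, false, false), (false, false, true), (false, true, false), (false, true, true),
   (true, false, false), (true, false, true), (true, true, false), (true, true, true)]

theorem mem_signs (s1 s2 s3 : Bool) : (s1, s2, s3) ∈ signs := by
  cases s1 <;> cases s2 <;> cases s3 <;> simp [signs]

def cl1 (F : Facts) (p q r : ℕ × ℕ) : List Cl :=
  (signs.filter (fun s => decide ((sg s.1 s.2.1 s.2.2, [p.1, q.1, r.1]) ∈ F))).map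
    (fun s => ((s.1, p.2), (s.2.1, q.2), (s.2.2, r.2)))

def cls (F : Facts) (P : List (ℕ × ℕ)) : List Cl :=
  P.flatMap (fun p => P.flatMap (fun q => P.flatMap (fun r => cl1 F p q r)))

def units (F : Facts) (P : List (ℕ × ℕ)) (i e : ℕ) : List Cl :=
  P.flatMap (fun p => ([false, true].filter (fun b =>
    decide ((10 + (2 + b.toNat), [i, e, p.1, p.1]) ∈ F))).map
      (fun b => ((!b, p.2), (!b, p.2), (!b, p.2))))

def item (F : Facts) (P : List (ℕ × ℕ)) (i e n : ℕ) : Item :=
  (List.replicate (min n (F.length + 1)) (),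
    if act M F P n = true then cls F P ++ units F P i e else [])

def items (F : Facts) (P : List (ℕ × ℕ)) (i e : ℕ) : List Item :=
  (P.filter (fun r => decide (r.1 = e))).map (fun r => item M F P i e r.2)

def chk (F : Facts) (i e : ℕ) : Bool :=
  (lay F i (F.length + 1)).isEmpty && chkU (dl F i) && chk1 F (dl F i) i e &&
    chk2 F (dl F i) i e && chk3 M F (dl F i) i e

section
variable {α : Type} [TEnc α] {F : α → Facts} {P : α → List (ℕ × ℕ)} {i e n : α → ℕ}

@[fun_prop] theorem poly_chkU (hP : Poly P) : Poly (fun a => chkU (P a)) := by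
  unfold chkU
  fun_prop

@[fun_prop] theorem poly_chk1 (hF : Poly F) (hP : Poly P) (hi : Poly i) (he : Poly e) :
    Poly (fun a => chk1 (F a) (P a) (i a) (e a)) := by
  unfold chk1
  fun_prop

@[fun_prop] theorem poly_chk2 (hF : Poly F) (hP : Poly P) (hi : Poly i) (he : Poly e) :
    Poly (fun a => chk2 (F a) (P a) (i a) (e a)) := by
  unfold chk2
  fun_prop

@[fun_prop] theorem poly_bad3 {p q : α → ℕ × ℕ} (hF : Poly F) (hi : Poly i) (he : Poly e)
    (hn : Poly n) (hp : Poly p) (hq : Poly q) :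
    Poly (fun a => bad3 M (F a) (i a) (e a) (n a) (p a) (q a)) := by
  unfold bad3
  have : Poly (fun a => (tabc M (n a) ((F a).length + 1) (p a).2 (q a).2).val) :=
    poly_val (poly_tabc M hn (uPoly_len hF) (by fun_prop) (by fun_prop))
  fun_prop

@[fun_prop] theorem poly_chk3 (hF : Poly F) (hP : Poly P) (hi : Poly i) (he : Poly e) :
    Poly (fun a => chk3 M (F a) (P a) (i a) (e a)) := by
  unfold chk3
  fun_prop

@[fun_prop] theorem poly_act (hF : Poly F) (hP : Poly P) (hn : Poly n) :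
    Poly (fun a => act M (F a) (P a) (n a)) := by
  unfold act
  refine Poly.any (p := fun a (z : ℕ × ℕ) => M.acc (tabc M (n a) ((F a).length + 1) z.2 0)) hP ?_
  exact poly_acc M (poly_tabc M (by fun_prop) (uPoly_len (by fun_prop)) (by fun_prop)
    (by fun_prop))

@[fun_prop] theorem poly_sg {x y z : α → Bool} (hx : Poly x) (hy : Poly y) (hz : Poly z) :
    Poly (fun a => sg (x a) (y a) (z a)) :=
  (CL.polyOfFintype (fun p : Bool × Bool × Bool => sg p.1 p.2.1 p.2.2)).comp
    (hx.pair (hy.pair hz))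

@[fun_prop] theorem poly_toNat {x : α → Bool} (hx : Poly x) : Poly (fun a => (x a).toNat) :=
  (CL.polyOfFintype Bool.toNat).comp hx

@[fun_prop] theorem poly_cl1 {p q r : α → ℕ × ℕ} (hF : Poly F) (hp : Poly p) (hq : Poly q)
    (hr : Poly r) : Poly (fun a => cl1 (F a) (p a) (q a) (r a)) := by
  unfold cl1
  fun_prop

@[fun_prop] theorem poly_cls (hF : Poly F) (hP : Poly P) : Poly (fun a => cls (F a) (P a)) := by
  unfold cls
  fun_prop

@[fun_prop] theorem poly_units (hF : Poly F) (hP : Poly P) (hi : Poly i) (he : Poly e) :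
    Poly (fun a => units (F a) (P a) (i a) (e a)) := by
  unfold units
  fun_prop

@[fun_prop] theorem poly_item (hF : Poly F) (hP : Poly P) (hi : Poly i) (he : Poly e)
    (hn : Poly n) : Poly (fun a => item M (F a) (P a) (i a) (e a) (n a)) := by
  unfold item
  have : Poly (fun a => List.replicate (min (n a) ((F a).length + 1)) ()) :=
    uPoly_min hn (uPoly_len hF)
  fun_prop

@[fun_prop] theorem poly_items (hF : Poly F) (hP : Poly P) (hi : Poly i) (he : Poly e) :
    Poly (fun a => items M (F a) (P a) (i a) (e a)) := by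
  unfold items
  fun_prop

@[fun_prop] theorem poly_chk (hF : Poly F) (hi : Poly i) (he : Poly e) :
    Poly (fun a => chk M (F a) (i a) (e a)) := by
  unfold chk
  have : Poly (fun a => lay (F a) (i a) ((F a).length + 1)) := poly_lay hF hi (uPoly_len hF)
  fun_prop

end

section
variable {F : Facts} {P : List (ℕ × ℕ)} {i e : ℕ}

theorem asg_iff (hP : ∀ x a, (x, a) ∈ P ↔ Dp (rS (fr F)) i x a) (n : ℕ) (τ : ℕ → Bool) :
    Asg (G := K) (rS (fr F)) (rC (fr F)) (rN (fr F) i e) i n τ ↔
      ∀ c ∈ cls F P ++ units F P i e, ClOK n τ c := by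
  constructor
  · rintro ⟨h1, h2⟩ c hc
    rcases List.mem_append.1 hc with hc | hc
    · simp only [cls, cl1, List.mem_flatMap, List.mem_map, List.mem_filter,
        decide_eq_true_eq] at hc
      obtain ⟨p, hp, q, hq, r, hr, s, ⟨_, hs⟩, rfl⟩ := hc
      exact h2 _ _ _ _ _ _ _ _ _ hs ((hP _ _).1 hp) ((hP _ _).1 hq) ((hP _ _).1 hr)
    · simp only [units, List.mem_flatMap, List.mem_map, List.mem_filter,
        decide_eq_true_eq] at hc
      obtain ⟨p, hp, b, ⟨_, hb⟩, rfl⟩ := hc
      intro h3 _ _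
      exact Or.inl (h1 b p.1 p.2 hb ((hP _ _).1 hp) h3)
  · intro h
    refine ⟨fun b x v hn hx hv => ?_, fun s1 s2 s3 x y z u v w hC hx hy hz => ?_⟩
    · have := h ((!b, v), (!b, v), (!b, v)) (List.mem_append_right _ (by
        simp only [units, List.mem_flatMap, List.mem_map, List.mem_filter, decide_eq_true_eq]
        exact ⟨(x, v), (hP _ _).2 hx, b, ⟨by cases b <;> simp, hn⟩, rfl⟩)) hv hv hv
      simpa using this
    · exact h ((s1, u), (s2, v), (s3, w)) (List.mem_append_left _ (by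
        simp only [cls, cl1, List.mem_flatMap, List.mem_map, List.mem_filter, decide_eq_true_eq]
        exact ⟨(x, u), (hP _ _).2 hx, (y, v), (hP _ _).2 hy, (z, w), (hP _ _).2 hz, (s1, s2, s3),
          ⟨mem_signs _ _ _, hC⟩, rfl⟩))

variable {M}

theorem sem_iff {f : ℕ → Bool} {p : Polynomial ℕ} (hM : M.Dec f p) :
    Sem M (rS (fr F)) (rC (fr F)) (rN (fr F) i e) i e ↔
      chk M F i e = true ∧ ∀ it ∈ items M F (dl F i) i e, G f it := by
  have main : (∀ x a, Dp (rS (fr F)) i x a → a < F.length + 1) →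
      (Sem M (rS (fr F)) (rC (fr F)) (rN (fr F) i e) i e ↔
      (chkU (dl F i) = true ∧ chk1 F (dl F i) i e = true ∧ chk2 F (dl F i) i e = true ∧
        chk3 M F (dl F i) i e = true) ∧ ∀ it ∈ items M F (dl F i) i e, G f it) := by
    intro hb
    have hP : ∀ x a, (x, a) ∈ dl F i ↔ Dp (rS (fr F)) i x a := fun x a =>
      mem_dl.trans ⟨fun h => h.2, fun h => ⟨hb _ _ h, h⟩⟩
    generalize dl F i = P at hP
    have hact : ∀ n, act M F P n = true ↔
        ∃ a z, Dp (rS (fr F)) i z a ∧ M.acc (M.tab n a 0) = true := by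
      intro n
      unfold act
      rw [List.any_eq_true]
      constructor
      · rintro ⟨z, h1, h2⟩
        have h3 := (hP z.1 z.2).1 h1
        rw [tabc_eq M (hb _ _ h3)] at h2
        exact ⟨_, _, h3, h2⟩
      · rintro ⟨a, z, h1, h2⟩
        refine ⟨(z, a), (hP _ _).2 h1, ?_⟩
        rw [tabc_eq M (hb _ _ h1)]
        exact h2
    constructor
    · intro h
      refine ⟨⟨?_, ?_, ?_, ?_⟩, ?_⟩
      · simp only [chkU, List.all_eq_true, Bool.or_eq_true, Bool.not_eq_true',
          decide_eq_false_iff_not, decide_eq_true_eq, ← imp_iff_not_or]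
        intro p hp q hq hpq
        exact h.u p.1 _ _ ((hP _ _).1 hp) (hpq ▸ (hP _ _).1 hq)
      · simp only [chk1, List.all_eq_true, Bool.or_eq_true, Bool.not_eq_true',
          decide_eq_false_iff_not, ← imp_iff_not_or]
        intro p hp q hq hpq
        exact h.a1 p.1 q.1 p.2 ((hP _ _).1 hp) (hpq ▸ (hP _ _).1 hq)
      · simp only [chk2, List.all_eq_true, Bool.or_eq_true, Bool.not_eq_true',
          decide_eq_false_iff_not, ← imp_iff_not_or]
        intro p hp q hq hpq
        exact h.a2 p.1 q.1 p.2 q.2 ((hP _ _).1 hp) ((hP _ _).1 hq) hpq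
      · simp only [chk3, bad3, List.all_eq_true, Bool.or_eq_true, Bool.not_eq_true',
          decide_eq_false_iff_not, ← imp_iff_not_or]
        intro r hr hre p hp q hq z hz hzpq
        have h1 := (hP z.1 z.2).1 hz
        rw [hzpq] at h1
        rw [tabc_eq M (hb _ _ h1)]
        exact h.a3 r.2 p.2 q.2 p.1 q.1 z.1 (hre ▸ (hP _ _).1 hr) ((hP _ _).1 hp) ((hP _ _).1 hq) h1
      · simp only [items, List.mem_map, List.mem_filter, decide_eq_true_eq]
        rintro _ ⟨r, ⟨hr, hre⟩, rfl⟩ _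
        have h1 : Dp (rS (fr F)) i e r.2 := hre ▸ (hP _ _).1 hr
        unfold item SB
        simp only [List.length_replicate, min_eq_left (hb _ _ h1).le]
        split_ifs with ha
        · obtain ⟨a, z, h2, h3⟩ := (hact _).1 ha
          obtain ⟨τ, hτ⟩ := h.a4 _ _ _ h1 h2 h3
          exact ⟨τ, (asg_iff hP _ _).1 hτ⟩
        · exact ⟨fun _ => false, by simp⟩
    · rintro ⟨⟨h0, h1, h2, h3⟩, h4⟩
      simp only [chkU, chk1, chk2, chk3, bad3, List.all_eq_true, Bool.or_eq_true,
        Bool.not_eq_true', decide_eq_false_iff_not, decide_eq_true_eq,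
        ← imp_iff_not_or] at h0 h1 h2 h3
      refine ⟨fun x a b ha hb => h0 (x, a) ((hP _ _).2 ha) (x, b) ((hP _ _).2 hb) rfl,
        fun x y a ha hb => h1 (x, a) ((hP _ _).2 ha) (y, a) ((hP _ _).2 hb) rfl,
        fun x y a b ha hb hab => h2 (x, a) ((hP _ _).2 ha) (y, b) ((hP _ _).2 hb) hab,
        fun n a b t x z hn ht hx hz => ?_, fun n a z hn hz hacc => ?_⟩
      · have := h3 (e, n) ((hP _ _).2 hn) rfl (t, a) ((hP _ _).2 ht) (x, b) ((hP _ _).2 hx)
          (z, a + b) ((hP _ _).2 hz) rfl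
        rw [tabc_eq M (hb _ _ hz)] at this
        exact this
      · have h5 := h4 (item M F P i e n) (by
          simp only [items, List.mem_map, List.mem_filter, decide_eq_true_eq]
          exact ⟨(e, n), ⟨(hP _ _).2 hn, rfl⟩, rfl⟩)
        unfold G SB item at h5
        simp only [List.length_replicate, min_eq_left (hb _ _ hn).le,
          if_pos ((hact n).2 ⟨a, z, hz, hacc⟩)] at h5
        obtain ⟨τ, hτ⟩ := h5 ((hM n).1 a hacc)
        exact ⟨τ, (asg_iff hP _ _).2 hτ⟩
  unfold chk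
  simp only [Bool.and_eq_true, List.isEmpty_iff]
  constructor
  · intro h
    have hb : ∀ x a, Dp (rS (fr F)) i x a → a < F.length + 1 := fun x a hx => depth_lt h.u hx
    obtain ⟨⟨h0, h1, h2, h3⟩, h4⟩ := (main hb).1 h
    refine ⟨⟨⟨⟨⟨?_, h0⟩, h1⟩, h2⟩, h3⟩, h4⟩
    rw [List.eq_nil_iff_forall_not_mem]
    intro x hx
    exact absurd (hb _ _ (mem_lay.1 hx)) (lt_irrefl _)
  · rintro ⟨⟨⟨⟨⟨h, h0⟩, h1⟩, h2⟩, h3⟩, h4⟩
    refine (main fun x a hx => ?_).2 ⟨⟨h0, h1, h2, h3⟩, h4⟩
    by_contra hc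
    obtain ⟨y, hy⟩ := hx.down (F.length + 1) (by omega)
    have := mem_lay.2 hy
    rw [h] at this
    simp at this

end

/-! ### the reduction -/

def validb (K : ℕ) (I : Inst) : Bool :=
  I.2.all (fun f => decide (f.1 < 14 + K) && decide (f.2.length = ar f.1) &&
    f.2.all (fun x => decide (x < I.1.length)))

theorem validb_iff (I : Inst) : validb K I = true ↔ Valid K I := by
  simp only [validb, Valid, List.all_eq_true, Bool.and_eq_true, decide_eq_true_eq]

theorem poly_validb : Poly (validb K) := by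
  unfold validb ar
  fun_prop

def ses (F : Facts) : List (ℕ × ℕ) :=
  (F.filter (fun f => decide (f.1 = 1) && decide (f.2.length = 2))).map
    (fun f => (f.2.getD 0 0, f.2.getD 1 0))

theorem mem_ses {F : Facts} {i e : ℕ} : (i, e) ∈ ses F ↔ (1, [i, e]) ∈ F := by
  unfold ses
  simp only [List.mem_map, List.mem_filter, Bool.and_eq_true, decide_eq_true_eq, Prod.mk.injEq]
  constructor
  · rintro ⟨⟨k, t⟩, ⟨h1, h2, h3⟩, h4, h5⟩
    obtain ⟨a, b, rfl⟩ := List.length_eq_two.1 h3
    simp only at h2 h4 h5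
    subst h2
    simp only [List.getD_cons_zero, List.getD_cons_succ] at h4 h5
    subst h4 h5
    exact h1
  · intro h
    exact ⟨(1, [i, e]), ⟨h, rfl, rfl⟩, rfl, rfl⟩

@[fun_prop] theorem poly_ses {α : Type} [TEnc α] {F : α → Facts} (hF : Poly F) :
    Poly (fun a => ses (F a)) := by
  unfold ses
  fun_prop

def red (I : Inst) : HInst :=
  (validb K I && (ses I.2).all (fun s => chk M I.2 s.1 s.2),
    (ses I.2).flatMap (fun s => items M I.2 (dl I.2 s.1) s.1 s.2))

theorem poly_red : Poly (red M) := by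
  unfold red
  have := poly_validb (K := K)
  fun_prop

/-- the problem, on inputs -/
def Csp (I : Inst) : Prop :=
  ∃ B : Str (sig K) (Fin I.1.length), Codes I B ∧ ∃ h, IsHom B (Tm M) h

variable {M}

theorem csp_sem (I : Inst) : Csp M I ↔ Valid K I ∧ ∀ i e, (1, [i, e]) ∈ I.2 →
    Sem M (rS (fr I.2)) (rC (fr I.2)) (rN (fr I.2) i e) i e :=
  (csp_iff I).trans (and_congr_right fun _ => forall₃_congr fun _ _ _ => ⟨Solv.sem, Sem.solv⟩)

theorem red_iff {f : ℕ → Bool} {p : Polynomial ℕ} (hM : M.Dec f p) (I : Inst) :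
    Csp M I ↔ H f (red M I) := by
  rw [csp_sem]
  unfold H red
  simp only [Bool.and_eq_true, validb_iff, List.all_eq_true, List.mem_flatMap, sem_iff hM]
  constructor
  · rintro ⟨h1, h2⟩
    refine ⟨⟨h1, fun s hs => (h2 s.1 s.2 (mem_ses.1 hs)).1⟩, ?_⟩
    rintro it ⟨s, hs, hit⟩
    exact (h2 s.1 s.2 (mem_ses.1 hs)).2 it hit
  · rintro ⟨⟨h1, h2⟩, h3⟩
    exact ⟨h1, fun i e hq => ⟨h2 (i, e) (mem_ses.2 hq),
      fun it hit => h3 it ⟨(i, e), mem_ses.2 hq, hit⟩⟩⟩

end Pool.Agent.H374Z.FB
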