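import Pool.Agent.H374Z.FB.CA

/-!
# The local rules and their least models
-/

namespace Pool.Agent.H374Z.FB

/-- colours of derived facts -/
inductive Col (G : ℕ) : Type
  | same : Col G
  | less : Col G
  | val (b : Bool) : Col G
  | cel (g : Fin G) : Col G

open Col

variable {G : ℕ} (M : CA (Fin G))

/-- the rules of a session -/
structure Closed {X : Type} (S : X → X → Prop) (C : Bool → Bool → Bool → X → X → X → Prop)
    (i e : X) (D : Col G → X → X → Prop) : Prop where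
  s0 : D same i i
  s1 : ∀ x y x' y', D same x y → S x x' → S y y' → D same x' y'
  l0 : ∀ x y y', D same x y → S y y' → D less x y'
  l1 : ∀ x y y', D less x y → S y y' → D less x y'
  l2 : ∀ x, ¬ D less x x
  i0 : ∀ y, D less y e → D (cel (M.ini true)) i y
  i1 : ∀ y, D same y e → D (cel (M.ini false)) i y
  i2 : ∀ y, D less e y → D (cel (M.ini false)) i y
  c0 : ∀ g0 gp t t' p, D (cel g0) t i → D (cel gp) t p → S i p → S t t' →
    D (cel (M.d0 g0 gp)) t' i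
  c1 : ∀ g0 gm g gp t t' pm p pp, D (cel g0) t i → D (cel gm) t pm → D (cel g) t p →
    D (cel gp) t pp → S pm p → S p pp → S t t' → D (cel (M.d g0 gm g gp)) t' p
  c2 : ∀ g t x y, D (cel g) t x → D same x y → D (cel g) t y
  v0 : ∀ g t x, M.acc g = true → D (cel g) t i → D less x e →
    D (val false) x x ∨ D (val true) x x
  v1 : ∀ b x y, D (val b) x x → D same x y → D (val b) y y
  v2 : ∀ s1 s2 s3 x y z, C s1 s2 s3 x y z → D (val (!s1)) x x → D (val (!s2)) y y →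
    D (val (!s3)) z z → False

variable {M}

theorem Closed.comap {X Y : Type} {S : X → X → Prop} {C : Bool → Bool → Bool → X → X → X → Prop}
    {S' : Y → Y → Prop} {C' : Bool → Bool → Bool → Y → Y → Y → Prop} (f : Y → X) {i e : Y}
    {D : Col G → X → X → Prop} (h : Closed M S C (f i) (f e) D)
    (hS : ∀ x y, S' x y → S (f x) (f y))
    (hC : ∀ s1 s2 s3 x y z, C' s1 s2 s3 x y z → C s1 s2 s3 (f x) (f y) (f z)) :
    Closed M S' C' i e (fun c x y => D c (f x) (f y)) where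
  s0 := h.s0
  s1 _ _ _ _ a b c := h.s1 _ _ _ _ a (hS _ _ b) (hS _ _ c)
  l0 _ _ _ a b := h.l0 _ _ _ a (hS _ _ b)
  l1 _ _ _ a b := h.l1 _ _ _ a (hS _ _ b)
  l2 _ := h.l2 _
  i0 _ := h.i0 _
  i1 _ := h.i1 _
  i2 _ := h.i2 _
  c0 _ _ _ _ _ a b c d := h.c0 _ _ _ _ _ a b (hS _ _ c) (hS _ _ d)
  c1 _ _ _ _ _ _ _ _ _ a b c d x y z :=
    h.c1 _ _ _ _ _ _ _ _ _ a b c d (hS _ _ x) (hS _ _ y) (hS _ _ z)
  c2 _ _ _ _ := h.c2 _ _ _ _
  v0 _ _ _ := h.v0 _ _ _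
  v1 _ _ _ := h.v1 _ _ _
  v2 _ _ _ _ _ _ a := h.v2 _ _ _ _ _ _ (hC _ _ _ _ _ _ a)

theorem Closed.of_local {X : Type} {S : X → X → Prop} {C : Bool → Bool → Bool → X → X → X → Prop}
    {i e : X} {D : Col G → X → X → Prop}
    (h : ∀ a b c d f : X, Closed M (fun x y : Fin 7 => S (![i, e, a, b, c, d, f] x)
      (![i, e, a, b, c, d, f] y)) (fun s1 s2 s3 x y z => C s1 s2 s3 (![i, e, a, b, c, d, f] x)
        (![i, e, a, b, c, d, f] y) (![i, e, a, b, c, d, f] z)) 0 1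
        (fun k x y => D k (![i, e, a, b, c, d, f] x) (![i, e, a, b, c, d, f] y))) :
    Closed M S C i e D where
  s0 := (h i i i i i).s0
  s1 x y x' y' := (h x y x' y' i).s1 2 3 4 5
  l0 x y y' := (h x y y' i i).l0 2 3 4
  l1 x y y' := (h x y y' i i).l1 2 3 4
  l2 x := (h x i i i i).l2 2
  i0 y := (h y i i i i).i0 2
  i1 y := (h y i i i i).i1 2
  i2 y := (h y i i i i).i2 2
  c0 g0 gp t t' p := (h t t' p i i).c0 g0 gp 2 3 4
  c1 g0 gm g gp t t' pm p pp := (h t t' pm p pp).c1 g0 gm g gp 2 3 4 5 6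
  c2 g t x y := (h t x y i i).c2 g 2 3 4
  v0 g t x := (h t x i i i).v0 g 2 3
  v1 b x y := (h x y i i i).v1 b 2 3
  v2 s1 s2 s3 x y z := (h x y z i i).v2 s1 s2 s3 2 3 4

theorem Closed.push {X Y : Type} {S : X → X → Prop} {C : Bool → Bool → Bool → X → X → X → Prop}
    {S' : Y → Y → Prop} {C' : Bool → Bool → Bool → Y → Y → Y → Prop} {f : X → Y}
    (hf : Function.Injective f) {i e : X}
    {D : Col G → X → X → Prop} (h : Closed M S C i e D)
    (hS : ∀ x y, S' (f x) y → ∃ y0, y = f y0 ∧ S x y0)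
    (hC : ∀ s1 s2 s3 x y z, C' s1 s2 s3 (f x) (f y) (f z) → C s1 s2 s3 x y z) :
    Closed M S' C' (f i) (f e) (fun c x y => ∃ x0 y0, x = f x0 ∧ y = f y0 ∧ D c x0 y0) := by
  have hS' : ∀ x y, S' (f x) (f y) → S x y := by
    intro x y hxy
    obtain ⟨y0, h1, h2⟩ := hS x _ hxy
    rwa [hf h1]
  constructor
  · exact ⟨i, i, rfl, rfl, h.s0⟩
  · rintro _ _ x' y' ⟨x, y, rfl, rfl, a⟩ b c
    obtain ⟨x1, rfl, b'⟩ := hS _ _ b
    obtain ⟨y1, rfl, c'⟩ := hS _ _ c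
    exact ⟨_, _, rfl, rfl, h.s1 _ _ _ _ a b' c'⟩
  · rintro _ _ y' ⟨x, y, rfl, rfl, a⟩ b
    obtain ⟨x1, rfl, b'⟩ := hS _ _ b
    exact ⟨_, _, rfl, rfl, h.l0 _ _ _ a b'⟩
  · rintro _ _ y' ⟨x, y, rfl, rfl, a⟩ b
    obtain ⟨x1, rfl, b'⟩ := hS _ _ b
    exact ⟨_, _, rfl, rfl, h.l1 _ _ _ a b'⟩
  · rintro _ ⟨x, y, rfl, h1, a⟩
    obtain rfl := hf h1
    exact h.l2 _ a
  · rintro _ ⟨x, y, rfl, h1, a⟩
    obtain rfl := hf h1
    exact ⟨_, _, rfl, rfl, h.i0 _ a⟩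
  · rintro _ ⟨x, y, rfl, h1, a⟩
    obtain rfl := hf h1
    exact ⟨_, _, rfl, rfl, h.i1 _ a⟩
  · rintro _ ⟨x, y, h1, rfl, a⟩
    obtain rfl := hf h1
    exact ⟨_, _, rfl, rfl, h.i2 _ a⟩
  · rintro g0 gp _ t' _ ⟨t, x, rfl, h1, a⟩ ⟨t1, p, h2, rfl, b⟩ c d
    obtain rfl := hf h1
    obtain rfl := hf h2
    obtain ⟨t1, rfl, d'⟩ := hS _ _ d
    exact ⟨_, _, rfl, rfl, h.c0 _ _ _ _ _ a b (hS' _ _ c) d'⟩
  · rintro g0 gm g gp _ t' _ _ _ ⟨t, x, rfl, h1, a⟩ ⟨t1, pm, h2, rfl, b⟩ ⟨t2, p, h3, rfl, c⟩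
      ⟨t3, pp, h4, rfl, d⟩ u v w
    obtain rfl := hf h1
    obtain rfl := hf h2
    obtain rfl := hf h3
    obtain rfl := hf h4
    obtain ⟨t1, rfl, w'⟩ := hS _ _ w
    exact ⟨_, _, rfl, rfl, h.c1 _ _ _ _ _ _ _ _ _ a b c d (hS' _ _ u) (hS' _ _ v) w'⟩
  · rintro g _ _ _ ⟨t, x, rfl, rfl, a⟩ ⟨x1, y, h1, rfl, b⟩
    obtain rfl := hf h1
    exact ⟨_, _, rfl, rfl, h.c2 _ _ _ _ a b⟩
  · rintro g _ _ hg ⟨t, x, rfl, h1, a⟩ ⟨x1, y, rfl, h2, b⟩
    obtain rfl := hf h1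
    obtain rfl := hf h2
    exact (h.v0 _ _ _ hg a b).imp (fun c => ⟨_, _, rfl, rfl, c⟩) (fun c => ⟨_, _, rfl, rfl, c⟩)
  · rintro b _ _ ⟨x, x', rfl, h1, a⟩ ⟨x1, y, h2, rfl, c⟩
    obtain rfl := hf h1
    obtain rfl := hf h2
    exact ⟨_, _, rfl, rfl, h.v1 _ _ _ a c⟩
  · rintro s1 s2 s3 _ _ _ a ⟨x, x', rfl, h1, b⟩ ⟨y, y', rfl, h2, c⟩ ⟨z, z', rfl, h3, d⟩
    obtain rfl := hf h1
    obtain rfl := hf h2
    obtain rfl := hf h3
    exact h.v2 _ _ _ _ _ _ (hC _ _ _ _ _ _ a) b c d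

/-! ### depths -/

/-- `x` is the end of a walk of length `a` from `i` -/
inductive Dp {X : Type} (S : X → X → Prop) (i : X) : X → ℕ → Prop
  | zero : Dp S i i 0
  | succ {x y a} : Dp S i x a → S x y → Dp S i y (a + 1)

section
variable {X : Type} {S : X → X → Prop} {i : X}

theorem Dp.eq_zero {x : X} (h : Dp S i x 0) : x = i := by cases h; rfl

theorem Dp.pred {y : X} {a : ℕ} (h : Dp S i y (a + 1)) : ∃ x, Dp S i x a ∧ S x y := by
  cases h with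
  | succ h1 h2 => exact ⟨_, h1, h2⟩

theorem Dp.down {z : X} {a : ℕ} (h : Dp S i z a) : ∀ b, b ≤ a → ∃ x, Dp S i x b := by
  induction h with
  | zero => intro b hb; exact ⟨i, by rw [Nat.le_zero.1 hb]; exact Dp.zero⟩
  | succ h1 h2 ih =>
    intro b hb
    rcases Nat.lt_or_eq_of_le hb with h | rfl
    · exact ih b (by omega)
    · exact ⟨_, Dp.succ h1 h2⟩

variable {C : Bool → Bool → Bool → X → X → X → Prop} {e : X} {D : Col G → X → X → Prop}

theorem Closed.same_of (h : Closed M S C i e D) : ∀ (a : ℕ) (x y : X), Dp S i x a → Dp S i y a →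
    D same x y
  | 0, x, y, hx, hy => by rw [hx.eq_zero, hy.eq_zero]; exact h.s0
  | a + 1, x, y, hx, hy => by
    obtain ⟨x0, h1, h2⟩ := hx.pred
    obtain ⟨y0, h3, h4⟩ := hy.pred
    exact h.s1 _ _ _ _ (h.same_of a _ _ h1 h3) h2 h4

theorem Closed.less_of (h : Closed M S C i e D) {x : X} {a : ℕ} (hx : Dp S i x a) :
    ∀ (b : ℕ) (y : X), Dp S i y b → a < b → D less x y
  | 0, _, _, hab => absurd hab (by omega)
  | b + 1, y, hy, hab => by
    obtain ⟨y0, h3, h4⟩ := hy.pred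
    rcases Nat.lt_or_eq_of_le (Nat.le_of_lt_succ hab) with h1 | rfl
    · exact h.l1 _ _ _ (h.less_of hx b _ h3 h1) h4
    · exact h.l0 _ _ _ (h.same_of _ _ _ hx h3) h4

theorem Closed.uniq (h : Closed M S C i e D) {x : X} {a b : ℕ} (ha : Dp S i x a)
    (hb : Dp S i x b) : a = b := by
  rcases lt_trichotomy a b with h1 | h1 | h1
  · exact absurd (h.less_of ha _ _ hb h1) (h.l2 _)
  · exact h1
  · exact absurd (h.less_of hb _ _ ha h1) (h.l2 _)

theorem Closed.cell_of (h : Closed M S C i e D) {n : ℕ} (hn : Dp S i e n) :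
    ∀ (a b : ℕ) (t x z : X), Dp S i t a → Dp S i x b → Dp S i z (a + b) →
      D (cel (M.tab n a b)) t x
  | 0, b, t, x, _, ht, hx, _ => by
    rw [ht.eq_zero, CA.tab]
    rcases lt_trichotomy b n with h1 | rfl | h1
    · rw [decide_eq_true h1]
      exact h.i0 _ (h.less_of hx _ _ hn h1)
    · rw [decide_eq_false (lt_irrefl _)]
      exact h.i1 _ (h.same_of _ _ _ hx hn)
    · rw [decide_eq_false (by omega)]
      exact h.i2 _ (h.less_of hn _ _ hx h1)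
  | a + 1, 0, t, x, z, ht, hx, hz => by
    obtain ⟨t0, h1, h2⟩ := ht.pred
    obtain ⟨p, hp⟩ := hz.down 1 (by omega)
    obtain ⟨q, hq, hqp⟩ := hp.pred
    rw [hq.eq_zero] at hqp
    rw [hx.eq_zero, CA.tab]
    exact h.c0 _ _ _ _ _ (h.cell_of hn a 0 _ _ _ h1 Dp.zero h1) (h.cell_of hn a 1 _ _ _ h1 hp hz)
      hqp h2
  | a + 1, b + 1, t, x, z, ht, hx, hz => by
    obtain ⟨t0, h1, h2⟩ := ht.pred
    obtain ⟨pp, hpp⟩ := hz.down (b + 2) (by omega)
    obtain ⟨p, hp, h3⟩ := hpp.pred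
    obtain ⟨pm, hpm, h4⟩ := hp.pred
    obtain ⟨z1, hz1⟩ := hz.down (a + b) (by omega)
    obtain ⟨z2, hz2⟩ := hz.down (a + (b + 1)) (by omega)
    obtain ⟨z3, hz3⟩ := hz.down (a + (b + 2)) (by omega)
    rw [CA.tab]
    exact h.c2 _ _ _ _ (h.c1 _ _ _ _ _ _ _ _ _ (h.cell_of hn a 0 _ _ _ h1 Dp.zero h1)
      (h.cell_of hn a b _ _ _ h1 hpm hz1) (h.cell_of hn a (b + 1) _ _ _ h1 hp hz2)
      (h.cell_of hn a (b + 2) _ _ _ h1 hpp hz3) h4 h3 h2) (h.same_of _ _ _ hp hx)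

end

variable (M)

/-- some closed set of derived facts avoids the forbidden facts -/
def Solv {X : Type} (S : X → X → Prop) (C : Bool → Bool → Bool → X → X → X → Prop)
    (N : Col G → X → X → Prop) (i e : X) : Prop :=
  ∃ D, Closed M S C i e D ∧ ∀ c x y, N c x y → ¬ D c x y

/-- an assignment on depths that respects the clauses and the forbidden values -/
def Asg {X : Type} (S : X → X → Prop) (C : Bool → Bool → Bool → X → X → X → Prop)
    (N : Col G → X → X → Prop) (i : X) (n : ℕ) (τ : ℕ → Bool) : Prop :=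
  (∀ b x v, N (val b) x x → Dp S i x v → v < n → τ v = !b) ∧
    ∀ s1 s2 s3 x y z u v w, C s1 s2 s3 x y z → Dp S i x u → Dp S i y v → Dp S i z w →
      u < n → v < n → w < n → τ u = s1 ∨ τ v = s2 ∨ τ w = s3

/-- the meaning of solvability -/
structure Sem {X : Type} (S : X → X → Prop) (C : Bool → Bool → Bool → X → X → X → Prop)
    (N : Col G → X → X → Prop) (i e : X) : Prop where
  u : ∀ x a b, Dp S i x a → Dp S i x b → a = b
  a1 : ∀ x y a, Dp S i x a → Dp S i y a → ¬ N same x y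
  a2 : ∀ x y a b, Dp S i x a → Dp S i y b → a < b → ¬ N less x y
  a3 : ∀ n a b t x z, Dp S i e n → Dp S i t a → Dp S i x b → Dp S i z (a + b) →
    ¬ N (cel (M.tab n a b)) t x
  a4 : ∀ n a z, Dp S i e n → Dp S i z a → M.acc (M.tab n a 0) = true → ∃ τ, Asg S C N i n τ

variable {M}

theorem Solv.sem {X : Type} {S : X → X → Prop} {C : Bool → Bool → Bool → X → X → X → Prop}
    {N : Col G → X → X → Prop} {i e : X} (h : Solv M S C N i e) : Sem M S C N i e := by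
  classical
  obtain ⟨D, h, hN⟩ := h
  refine ⟨fun x a b => h.uniq, fun x y a hx hy hn => hN _ _ _ hn (h.same_of _ _ _ hx hy),
    fun x y a b hx hy hab hn => hN _ _ _ hn (h.less_of hx _ _ hy hab),
    fun n a b t x z he ht hx hz hn => hN _ _ _ hn (h.cell_of he _ _ _ _ _ ht hx hz), ?_⟩
  intro n a z he hz hacc
  have hc := h.cell_of he a 0 z i z hz Dp.zero hz
  have key : ∀ x v, Dp S i x v → v < n →
      D (val (decide (∃ y, Dp S i y v ∧ D (val true) y y))) x x := by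
    intro x v hx hv
    by_cases hy : ∃ y, Dp S i y v ∧ D (val true) y y
    · rw [decide_eq_true hy]
      obtain ⟨y, h1, h2⟩ := hy
      exact h.v1 _ _ _ h2 (h.same_of _ _ _ h1 hx)
    · rw [decide_eq_false hy]
      exact (h.v0 _ _ _ hacc hc (h.less_of hx _ _ he hv)).resolve_right fun h2 => hy ⟨x, hx, h2⟩
  refine ⟨fun v => decide (∃ y, Dp S i y v ∧ D (val true) y y), ?_, ?_⟩
  · intro b x v hn hx hv
    have h1 := key x v hx hv
    have h2 := hN _ _ _ hn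
    simp only
    generalize decide (∃ y, Dp S i y v ∧ D (val true) y y) = c at h1 ⊢
    cases b <;> cases c <;> simp_all
  · intro s1 s2 s3 x y z u v w hC hx hy hz hu hv hw
    have h1 := key x u hx hu
    have h2 := key y v hy hv
    have h3 := key z w hz hw
    have h4 := h.v2 _ _ _ _ _ _ hC
    simp only
    generalize decide (∃ y, Dp S i y u ∧ D (val true) y y) = c1 at h1 ⊢
    generalize decide (∃ y, Dp S i y v ∧ D (val true) y y) = c2 at h2 ⊢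
    generalize decide (∃ y, Dp S i y w ∧ D (val true) y y) = c3 at h3 ⊢
    by_contra hne
    simp only [not_or] at hne
    obtain ⟨e1, e2, e3⟩ := hne
    have f1 : c1 = !s1 := by revert e1; cases c1 <;> cases s1 <;> simp
    have f2 : c2 = !s2 := by revert e2; cases c2 <;> cases s2 <;> simp
    have f3 : c3 = !s3 := by revert e3; cases c3 <;> cases s3 <;> simp
    subst f1 f2 f3
    exact h4 h1 h2 h3

/-- the least model for a given assignment -/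
def least (M : CA (Fin G)) {X : Type} (S : X → X → Prop) (i e : X) (τ : ℕ → Bool) :
    Col G → X → X → Prop
  | same, x, y => ∃ a, Dp S i x a ∧ Dp S i y a
  | less, x, y => ∃ a b, Dp S i x a ∧ Dp S i y b ∧ a < b
  | val b, x, y => x = y ∧ ∃ n a z v, Dp S i e n ∧ Dp S i z a ∧ M.acc (M.tab n a 0) = true ∧
      Dp S i x v ∧ v < n ∧ τ v = b
  | cel g, t, x => ∃ n a b z, Dp S i e n ∧ Dp S i t a ∧ Dp S i x b ∧ Dp S i z (a + b) ∧
      g = M.tab n a b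

theorem Sem.solv {X : Type} {S : X → X → Prop} {C : Bool → Bool → Bool → X → X → X → Prop}
    {N : Col G → X → X → Prop} {i e : X} (h : Sem M S C N i e) : Solv M S C N i e := by
  obtain ⟨τ, hτ⟩ : ∃ τ, ∀ n a z, Dp S i e n → Dp S i z a → M.acc (M.tab n a 0) = true →
      Asg S C N i n τ := by
    by_cases hx : ∃ n a z, Dp S i e n ∧ Dp S i z a ∧ M.acc (M.tab n a 0) = true
    · obtain ⟨n, a, z, h1, h2, h3⟩ := hx
      obtain ⟨τ, hτ⟩ := h.a4 n a z h1 h2 h3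
      refine ⟨τ, fun n' _ _ h4 _ _ => ?_⟩
      rwa [h.u _ _ _ h4 h1]
    · exact ⟨fun _ => false, fun n a z h1 h2 h3 => absurd ⟨n, a, z, h1, h2, h3⟩ hx⟩
  have hu := h.u
  refine ⟨least M S i e τ, ?_, ?_⟩
  · constructor
    · exact ⟨0, Dp.zero, Dp.zero⟩
    · rintro x y x' y' ⟨a, h1, h2⟩ h3 h4
      exact ⟨a + 1, h1.succ h3, h2.succ h4⟩
    · rintro x y y' ⟨a, h1, h2⟩ h3
      exact ⟨a, a + 1, h1, h2.succ h3, by omega⟩
    · rintro x y y' ⟨a, b, h1, h2, h4⟩ h3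
      exact ⟨a, b + 1, h1, h2.succ h3, by omega⟩
    · rintro x ⟨a, b, h1, h2, h4⟩
      exact absurd (hu _ _ _ h1 h2) (by omega)
    · rintro y ⟨a, b, h1, h2, h4⟩
      exact ⟨b, 0, a, y, h2, Dp.zero, h1, by simpa using h1, by rw [CA.tab, decide_eq_true h4]⟩
    · rintro y ⟨a, h1, h2⟩
      exact ⟨a, 0, a, y, h2, Dp.zero, h1, by simpa using h1,
        by rw [CA.tab, decide_eq_false (lt_irrefl _)]⟩
    · rintro y ⟨a, b, h1, h2, h4⟩
      exact ⟨a, 0, b, y, h1, Dp.zero, h2, by simpa using h2,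
        by rw [CA.tab, decide_eq_false (by omega)]⟩
    · rintro g0 gp t t' p ⟨n, a, b, z, h1, h2, h3, h4, rfl⟩ ⟨n', a', b', z', h5, h6, h7, h8, rfl⟩
        h9 h10
      obtain rfl := hu _ _ _ h1 h5
      obtain rfl := hu _ _ _ h2 h6
      obtain rfl := hu _ _ _ h3 Dp.zero
      obtain rfl := hu _ _ _ h7 (Dp.zero.succ h9)
      exact ⟨n, a + 1, 0, z', h1, h2.succ h10, Dp.zero, h8, by rw [CA.tab]⟩
    · rintro g0 gm g gp t t' pm p pp ⟨n, a, b, z, h1, h2, h3, h4, rfl⟩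
        ⟨n1, a1, b1, z1, h5, h6, h7, h8, rfl⟩ ⟨n2, a2, b2, z2, k1, k2, k3, k4, rfl⟩
        ⟨n3, a3, b3, z3, k5, k6, k7, k8, rfl⟩ u1 u2 u3
      obtain rfl := hu _ _ _ h1 h5
      obtain rfl := hu _ _ _ h1 k1
      obtain rfl := hu _ _ _ h1 k5
      obtain rfl := hu _ _ _ h2 h6
      obtain rfl := hu _ _ _ h2 k2
      obtain rfl := hu _ _ _ h2 k6
      obtain rfl := hu _ _ _ h3 Dp.zero
      obtain rfl := hu _ _ _ k3 (h7.succ u1)
      obtain rfl := hu _ _ _ k7 (k3.succ u2)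
      exact ⟨n, a + 1, b1 + 1, z3, h1, h2.succ u3, k3,
        by rw [show a + 1 + (b1 + 1) = a + (b1 + 1 + 1) by omega]; exact k8, by rw [CA.tab]⟩
    · rintro g t x y ⟨n, a, b, z, h1, h2, h3, h4, rfl⟩ ⟨c, h5, h6⟩
      obtain rfl := hu _ _ _ h3 h5
      exact ⟨n, a, b, z, h1, h2, h6, h4, rfl⟩
    · rintro g t x hg ⟨n, a, b, z, h1, h2, h3, h4, rfl⟩ ⟨c, d, h5, h6, h7⟩
      obtain rfl := hu _ _ _ h3 Dp.zero
      obtain rfl := hu _ _ _ h1 h6
      cases hc : τ c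
      · exact Or.inl ⟨rfl, n, a, t, c, h1, h2, hg, h5, h7, hc⟩
      · exact Or.inr ⟨rfl, n, a, t, c, h1, h2, hg, h5, h7, hc⟩
    · rintro b x y ⟨_, n, a, z, v, h1, h2, h3, h4, h5, h6⟩ ⟨c, h7, h8⟩
      obtain rfl := hu _ _ _ h4 h7
      exact ⟨rfl, n, a, z, v, h1, h2, h3, h8, h5, h6⟩
    · rintro s1 s2 s3 x y z hC ⟨_, n, a, z0, u, h1, h2, h3, h4, h5, h6⟩
        ⟨_, n1, a1, z1, v, k1, _, _, k4, k5, k6⟩ ⟨_, n2, a2, z2, w, l1, _, _, l4, l5, l6⟩
      obtain rfl := hu _ _ _ h1 k1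
      obtain rfl := hu _ _ _ h1 l1
      have := (hτ n a z0 h1 h2 h3).2 _ _ _ _ _ _ _ _ _ hC h4 k4 l4 h5 k5 l5
      rw [h6, k6, l6] at this
      simp at this
  · rintro (_ | _ | b | g) x y hn
    · rintro ⟨a, h1, h2⟩
      exact h.a1 _ _ _ h1 h2 hn
    · rintro ⟨a, b, h1, h2, h3⟩
      exact h.a2 _ _ _ _ h1 h2 h3 hn
    · rintro ⟨rfl, n, a, z, v, h1, h2, h3, h4, h5, h6⟩
      have := (hτ n a z h1 h2 h3).1 _ _ _ hn h4 h5
      rw [h6] at this
      simp at this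
    · rintro ⟨n, a, b, z, h1, h2, h3, h4, rfl⟩
      exact h.a3 _ _ _ _ _ _ h1 h2 h3 h4 hn

end Pool.Agent.H374Z.FB
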