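import Pool.Agent.H374Z.FB.Rules
import Pool.Agent.H374Z.FB.Defs

/-!
# The finitely bounded template of an automaton
-/

namespace Pool.Agent.H374Z.FB

open Col

variable {G : ℕ}

def Col.idx : Col G → ℕ
  | same => 0
  | less => 1
  | val b => 2 + b.toNat
  | cel g => 4 + g.val

theorem Col.idx_lt : ∀ c : Col G, c.idx < 4 + G
  | same => by simp [Col.idx]
  | less => by simp only [Col.idx]; omega
  | val b => by cases b <;> simp only [Col.idx, Bool.toNat_false, Bool.toNat_true] <;> omega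
  | cel g => by simp [Col.idx]

theorem Col.idx_inj {c d : Col G} (h : c.idx = d.idx) : c = d := by
  rcases c with _ | _ | (_ | _) | g <;> rcases d with _ | _ | (_ | _) | g' <;>
    simp only [Col.idx, Bool.toNat_false, Bool.toNat_true] at h <;>
    first | rfl | omega | exact congrArg _ (Fin.ext (by omega))

theorem Col.idx_surj {k : ℕ} (h : k < 4 + G) : ∃ c : Col G, c.idx = k := by
  by_cases h4 : 4 ≤ k
  · exact ⟨cel ⟨k - 4, by omega⟩, by simp only [Col.idx]; omega⟩
  · have : k = 0 ∨ k = 1 ∨ k = 2 ∨ k = 3 := by omega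
    rcases this with rfl | rfl | rfl | rfl
    · exact ⟨same, rfl⟩
    · exact ⟨less, rfl⟩
    · exact ⟨val false, rfl⟩
    · exact ⟨val true, rfl⟩

def sg (s1 s2 s3 : Bool) : ℕ := 2 + (s1.toNat + 2 * s2.toNat + 4 * s3.toNat)

theorem sg_lt (s1 s2 s3 : Bool) : 2 ≤ sg s1 s2 s3 ∧ sg s1 s2 s3 < 10 := by
  cases s1 <;> cases s2 <;> cases s3 <;> simp [sg]

theorem sg_inj {s1 s2 s3 t1 t2 t3 : Bool} (h : sg s1 s2 s3 = sg t1 t2 t3) :
    s1 = t1 ∧ s2 = t2 ∧ s3 = t3 := by
  revert h
  cases s1 <;> cases s2 <;> cases s3 <;> cases t1 <;> cases t2 <;> cases t3 <;> simp [sg]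

def ar (k : ℕ) : ℕ := if k < 2 then 2 else if k < 10 then 3 else 4

/-- the signature -/
def sig (G : ℕ) : List ℕ := (List.range (14 + G)).map ar

theorem sig_iff {k m : ℕ} : (sig G)[k]? = some m ↔ k < 14 + G ∧ m = ar k := by
  unfold sig
  rw [List.getElem?_map]
  by_cases h : k < 14 + G
  · rw [List.getElem?_range h]
    simp [h, eq_comm]
  · rw [List.getElem?_eq_none (by simpa using h)]
    simp [h]

theorem ar_pos (k : ℕ) : 2 ≤ ar k := by unfold ar; split_ifs <;> omega

section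
variable {X : Type} (R : ℕ → List X → Prop)

def rS (x y : X) : Prop := R 0 [x, y]
def rC (s1 s2 s3 : Bool) (x y z : X) : Prop := R (sg s1 s2 s3) [x, y, z]
def rN (i e : X) (c : Col G) (x y : X) : Prop := R (10 + c.idx) [i, e, x, y]

/-- all sessions obey the rules -/
def Good (M : CA (Fin G)) : Prop :=
  ∀ i e, R 1 [i, e] → Closed M (rS R) (rC R) i e (fun c x y => ¬ rN R i e c x y)

end

variable {M : CA (Fin G)}

theorem Good.comap {X Y : Type} {R : ℕ → List X → Prop} (h : Good R M) (f : Y → X) :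
    Good (fun k t => R k (t.map f)) M := fun i e hq =>
  (h (f i) (f e) hq).comap f (fun _ _ h => h) (fun _ _ _ _ _ _ h => h)

theorem Good.of_local {X : Type} {R : ℕ → List X → Prop}
    (h : ∀ v : Fin 7 → X, Good (fun k t => R k (t.map v)) M) : Good R M := fun i e hq =>
  Closed.of_local fun a b c d f => h ![i, e, a, b, c, d, f] 0 1 hq

theorem solv_of_hom {X Y : Type} {R : ℕ → List X → Prop} {R' : ℕ → List Y → Prop} (h : X → Y)
    (hh : ∀ k t, R k t → R' k (t.map h)) (hg : Good R' M) {i e : X} (hq : R 1 [i, e]) :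
    Solv M (rS R) (rC R) (rN R i e) i e :=
  ⟨_, (hg (h i) (h e) (hh _ _ hq)).comap h (fun _ _ a => hh _ _ a)
    (fun _ _ _ _ _ _ a => hh _ _ a), fun _ _ _ a b => b (hh _ _ a)⟩

theorem Solv.comap {X Y : Type} {R : ℕ → List X → Prop} (f : Y → X) {i e : Y}
    (h : Solv M (rS R) (rC R) (rN R (f i) (f e)) (f i) (f e)) :
    Solv M (rS (fun k t => R k (t.map f))) (rC (fun k t => R k (t.map f)))
      (rN (fun k t => R k (t.map f)) i e) i e := by
  obtain ⟨D, h1, h2⟩ := h
  exact ⟨_, h1.comap f (fun _ _ h => h) (fun _ _ _ _ _ _ h => h), fun c x y a => h2 _ _ _ a⟩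

theorem ext_of_solv {X : Type} (B : Str (sig G) X)
    (h : ∀ i e, B.rel 1 [i, e] → Solv M (rS B.rel) (rC B.rel) (rN B.rel i e) i e) :
    ∃ B' : Str (sig G) X, Good B'.rel M ∧ ∀ k t, B.rel k t → B'.rel k t := by
  choose D hD hN using h
  refine ⟨⟨fun k t => (k < 10 ∧ B.rel k t) ∨ ∃ c i e x y, k = 10 + Col.idx c ∧ t = [i, e, x, y] ∧
    ∀ hq : B.rel 1 [i, e], ¬ D i e hq c x y, ?_⟩, ?_, ?_⟩
  · rintro k t (⟨_, h⟩ | ⟨c, i, e, x, y, rfl, rfl, _⟩)
    · exact B.wf _ _ h
    · have := c.idx_lt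
      rw [sig_iff]
      refine ⟨by omega, ?_⟩
      unfold ar
      rw [if_neg (by omega), if_neg (by omega)]
      rfl
  · intro i e hq
    have low : ∀ k t, k < 10 → ((k < 10 ∧ B.rel k t) ∨ ∃ c i e x y, k = 10 + Col.idx c ∧
        t = [i, e, x, y] ∧ ∀ hq : B.rel 1 [i, e], ¬ D i e hq c x y) → B.rel k t := by
      rintro k t hk (⟨_, h⟩ | ⟨c, i, e, x, y, h, _⟩)
      · exact h
      · omega
    have hq' := low _ _ (by omega) hq
    have h1 := (hD i e hq').comap (fun x => x)
      (S' := rS fun k t => (k < 10 ∧ B.rel k t) ∨ ∃ c i e x y, k = 10 + Col.idx c ∧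
        t = [i, e, x, y] ∧ ∀ hq : B.rel 1 [i, e], ¬ D i e hq c x y)
      (C' := rC fun k t => (k < 10 ∧ B.rel k t) ∨ ∃ c i e x y, k = 10 + Col.idx c ∧
        t = [i, e, x, y] ∧ ∀ hq : B.rel 1 [i, e], ¬ D i e hq c x y)
      (fun x y a => low 0 _ (by omega) a)
      (fun s1 s2 s3 x y z a => low _ _ (sg_lt s1 s2 s3).2 a)
    convert h1 using 4 with c x y
    constructor
    · intro h2
      by_contra h3
      exact h2 (Or.inr ⟨c, i, e, x, y, rfl, rfl, fun _ => h3⟩)
    · rintro h2 (⟨h3, _⟩ | ⟨c', i', e', x', y', h3, h4, h5⟩)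
      · omega
      · obtain rfl := Col.idx_inj (Nat.add_left_cancel h3)
        simp only [List.cons.injEq, and_true] at h4
        obtain ⟨rfl, rfl, rfl, rfl⟩ := h4
        exact h5 hq' h2
  · intro k t h
    by_cases hk : k < 10
    · exact Or.inl ⟨hk, h⟩
    · obtain ⟨h1, h2⟩ := sig_iff.1 (B.wf _ _ h)
      unfold ar at h2
      rw [if_neg (by omega), if_neg hk] at h2
      obtain ⟨c, hc⟩ := Col.idx_surj (G := G) (k := k - 10) (by omega)
      obtain ⟨i, e, x, y, rfl⟩ := List.length_eq_four.1 h2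
      have hk' : k = 10 + c.idx := by omega
      subst hk'
      exact Or.inr ⟨c, i, e, x, y, rfl, rfl, fun hq => hN i e hq c x y h⟩

/-! ### the template -/

/-- good finite structures -/
def GS (M : CA (Fin G)) : Type := {B : Σ n : ℕ, Str (sig G) (Fin n) // Good B.2.rel M}

/-- the domain of the template -/
def Dom (M : CA (Fin G)) : Type := Σ B : GS M, Fin B.1.1

def inc (B : GS M) (a : Fin B.1.1) : Dom M := ⟨B, a⟩

theorem inc_inj (B : GS M) : Function.Injective (inc B) := fun a b h => by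
  unfold inc at h
  exact eq_of_heq (Sigma.mk.inj_iff.1 h).2

theorem inc_comp {B B' : GS M} {a : Fin B.1.1} {t : List (Dom M)} {s : List (Fin B'.1.1)}
    (h : inc B a :: t = s.map (inc B')) : B' = B := by
  cases s with
  | nil => simp at h
  | cons b s =>
    simp only [List.map_cons, List.cons.injEq] at h
    exact (congrArg Sigma.fst h.1).symm

/-- the template -/
def Tm (M : CA (Fin G)) : Str (sig G) (Dom M) where
  rel k t := (∃ (B : GS M) (s : List (Fin B.1.1)), t = s.map (inc B) ∧ B.1.2.rel k s) ∨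
    (10 ≤ k ∧ k < 14 + G ∧ t.length = 4 ∧
      ¬ ∃ (B : GS M) (s : List (Fin B.1.1)), t = s.map (inc B))
  wf := by
    rintro k t (⟨B, s, rfl, h⟩ | ⟨h1, h2, h3, _⟩)
    · rw [List.length_map]
      exact B.1.2.wf _ _ h
    · rw [sig_iff]
      refine ⟨h2, ?_⟩
      unfold ar
      rw [if_neg (by omega), if_neg (by omega), h3]

theorem Tm_inc (B : GS M) (k : ℕ) (s : List (Fin B.1.1)) :
    B.1.2.rel k s ↔ (Tm M).rel k (s.map (inc B)) := by
  constructor
  · exact fun h => Or.inl ⟨B, s, rfl, h⟩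
  · rintro (⟨B', s', h1, h2⟩ | ⟨_, _, _, h⟩)
    · cases s with
      | nil =>
        have h3 := (sig_iff.1 (B'.1.2.wf _ _ h2)).2
        have h4 := ar_pos k
        have h5 := congrArg List.length h1
        simp only [List.map_nil, List.length_nil, List.length_map] at h5
        omega
      | cons a s =>
        obtain rfl := inc_comp h1
        rwa [List.map_injective_iff.2 (inc_inj _) h1]
    · exact absurd ⟨B, s, rfl⟩ h

theorem Tm_good : Good (Tm M).rel M := by
  rintro i e (⟨B, s, h1, h2⟩ | ⟨h, _⟩)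
  swap
  · omega
  obtain ⟨i0, e0, rfl⟩ : ∃ i0 e0, s = [i0, e0] :=
    List.length_eq_two.1 (by simpa using (congrArg List.length h1).symm)
  simp only [List.map_cons, List.map_nil, List.cons.injEq, and_true] at h1
  obtain ⟨rfl, rfl⟩ := h1
  have h3 := (B.2 i0 e0 h2).push (S' := rS (Tm M).rel) (C' := rC (Tm M).rel) (inc_inj B) ?_ ?_
  · convert h3 using 4 with c x y
    constructor
    · intro h4
      have h5 : ∃ (B' : GS M) (s : List (Fin B'.1.1)),
          [inc B i0, inc B e0, x, y] = s.map (inc B') := by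
        by_contra h5
        have := c.idx_lt
        exact h4 (Or.inr ⟨by omega, by omega, rfl, h5⟩)
      obtain ⟨B', s, h5⟩ := h5
      obtain rfl := inc_comp h5
      obtain ⟨i1, e1, x0, y0, rfl⟩ : ∃ i1 e1 x0 y0, s = [i1, e1, x0, y0] :=
        List.length_eq_four.1 (by simpa using (congrArg List.length h5).symm)
      simp only [List.map_cons, List.map_nil, List.cons.injEq, and_true] at h5
      obtain ⟨_, _, rfl, rfl⟩ := h5
      exact ⟨x0, y0, rfl, rfl, fun h6 => h4 ((Tm_inc B' _ _).1 h6)⟩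
    · rintro ⟨x0, y0, rfl, rfl, h4⟩ h5
      exact h4 ((Tm_inc B _ [i0, e0, x0, y0]).2 h5)
  · rintro x y (⟨B', s, h4, h5⟩ | ⟨h, _⟩)
    swap
    · omega
    obtain rfl := inc_comp h4
    obtain ⟨x1, y0, rfl⟩ : ∃ i0 e0, s = [i0, e0] :=
      List.length_eq_two.1 (by simpa using (congrArg List.length h4).symm)
    simp only [List.map_cons, List.map_nil, List.cons.injEq, and_true] at h4
    obtain ⟨h6, rfl⟩ := h4
    obtain rfl := inc_inj _ h6
    exact ⟨y0, rfl, h5⟩
  · intro s1 s2 s3 x y z h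
    exact (Tm_inc B _ [x, y, z]).2 h

theorem finite_str (τ : List ℕ) (m : ℕ) : Finite (Str τ (Fin m)) := by
  have h1 : {p : ℕ × List (Fin m) | p.1 < τ.length ∧ p.2.length ≤ τ.sum}.Finite :=
    (Set.finite_lt_nat τ.length).prod (List.finite_length_le (Fin m) τ.sum)
  have h2 := h1.finite_subsets.to_subtype
  refine Finite.of_injective (β := {b | b ⊆ {p : ℕ × List (Fin m) |
    p.1 < τ.length ∧ p.2.length ≤ τ.sum}}) (fun B => ⟨{p | B.rel p.1 p.2}, fun p hp => ?_⟩) ?_
  · have := B.wf _ _ hp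
    obtain ⟨h3, h4⟩ := List.getElem?_eq_some_iff.1 this
    refine ⟨h3, ?_⟩
    rw [← h4]
    exact List.single_le_sum (fun _ _ => Nat.zero_le _) _ (List.getElem_mem h3)
  · rintro ⟨r, hr⟩ ⟨r', hr'⟩ h
    have h3 : {p : ℕ × List (Fin m) | r p.1 p.2} = {p | r' p.1 p.2} := congrArg Subtype.val h
    have : r = r' := by
      funext k t
      exact congrFun h3 (k, t)
    subst this
    rfl

/-- induced structures -/
def Str.comap {τ : List ℕ} {X Y : Type} (B : Str τ X) (f : Y → X) : Str τ Y where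
  rel k t := B.rel k (t.map f)
  wf k t h := by simpa using B.wf _ _ h

theorem Good.of_embeds {X Y : Type} {B : Str (sig G) X} {A : Str (sig G) Y} (h : Embeds B A)
    (hA : Good A.rel M) : Good B.rel M := by
  obtain ⟨f, _, hf⟩ := h
  have : B.rel = fun k t => A.rel k (t.map f) := by
    funext k t
    exact propext (hf k t)
  rw [this]
  exact hA.comap f

theorem Tm_finBounded : FinBounded (Tm M) := by
  classical
  refine ⟨{C | C.1 ≤ 7 ∧ ¬ Good C.2.rel M}, ?_, fun n B => ?_⟩
  · refine Set.Finite.subset ((Set.finite_le_nat 7).biUnion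
      (t := fun m => Set.range (fun C : Str (sig G) (Fin m) =>
        (⟨m, C⟩ : Σ m, Str (sig G) (Fin m))))
      fun m _ => ?_) ?_
    · have := finite_str (sig G) m
      exact Set.finite_range _
    · rintro ⟨m, C⟩ ⟨h, _⟩
      simp only [Set.mem_iUnion]
      exact ⟨m, h, C, rfl⟩
  · constructor
    · intro h C hC hCB
      exact hC.2 (Good.of_embeds hCB (Good.of_embeds h Tm_good))
    · intro h
      have hg : Good B.rel M := by
        refine Good.of_local fun v => ?_
        let s : Finset (Fin n) := Finset.univ.image v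
        have hs : s.card ≤ 7 := Finset.card_image_le.trans (by simp)
        let f : Fin s.card → Fin n := fun a => (s.equivFin.symm a).1
        have hf : Function.Injective f :=
          Subtype.val_injective.comp s.equivFin.symm.injective
        have h1 : Good (B.comap f).rel M := by
          by_contra h2
          exact h ⟨s.card, B.comap f⟩ ⟨hs, h2⟩ ⟨f, hf, fun _ _ => Iff.rfl⟩
        have h2 := h1.comap (fun a : Fin 7 => s.equivFin ⟨v a, by simp [s]⟩)
        convert h2 using 3 with k t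
        simp [Str.comap, f, Function.comp_def]
      exact ⟨inc ⟨⟨n, B⟩, hg⟩, inc_inj _, Tm_inc ⟨⟨n, B⟩, hg⟩⟩

/-- well-formed inputs -/
def Valid (G : ℕ) (I : Inst) : Prop :=
  ∀ f ∈ I.2, (f.1 < 14 + G ∧ f.2.length = ar f.1) ∧ ∀ x ∈ f.2, x < I.1.length

/-- the facts of an input -/
def fr (F : List (ℕ × List ℕ)) (k : ℕ) (t : List ℕ) : Prop := (k, t) ∈ F

theorem csp_iff (I : Inst) :
    (∃ B : Str (sig G) (Fin I.1.length), Codes I B ∧ ∃ h, IsHom B (Tm M) h) ↔
      Valid G I ∧ ∀ i e, (1, [i, e]) ∈ I.2 →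
        Solv M (rS (fr I.2)) (rC (fr I.2)) (rN (fr I.2) i e) i e := by
  constructor
  · rintro ⟨B, hB, h, hh⟩
    refine ⟨fun f hf => ?_, fun i e hq => ?_⟩
    · obtain ⟨s, h1, h2⟩ := (hB f.1 f.2).1 hf
      rw [← h1, List.length_map]
      refine ⟨sig_iff.1 (B.wf _ _ h2), fun x hx => ?_⟩
      obtain ⟨a, _, rfl⟩ := List.mem_map.1 hx
      exact a.2
    · obtain ⟨s, h1, _⟩ := (hB _ _).1 hq
      obtain ⟨i0, s', rfl⟩ : ∃ i0 s', s = i0 :: s' := by
        cases s with
        | nil => simp at h1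
        | cons a s => exact ⟨a, s, rfl⟩
      refine solv_of_hom (fun x => if hx : x < I.1.length then h ⟨x, hx⟩ else h i0) ?_ Tm_good hq
      intro k t ht
      obtain ⟨s, rfl, h2⟩ := (hB _ _).1 ht
      convert hh _ _ h2 using 1
      rw [List.map_map]
      congr 1
      funext a
      simp
  · rintro ⟨hv, hs⟩
    let B : Str (sig G) (Fin I.1.length) := ⟨fun k t => fr I.2 k (t.map Fin.val), fun k t h => by
      have := (hv _ h).1
      rw [sig_iff]
      simpa using this⟩
    obtain ⟨B', hg, hB'⟩ := ext_of_solv (M := M) B fun i e hq =>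
      Solv.comap (R := fr I.2) Fin.val (hs _ _ hq)
    refine ⟨B, fun k t => ⟨fun h => ?_, ?_⟩, inc ⟨⟨_, B'⟩, hg⟩, fun k t h =>
      (Tm_inc ⟨⟨_, B'⟩, hg⟩ k t).1 (hB' _ _ h)⟩
    · have h1 := (hv _ h).2
      have h2 : (t.pmap Fin.mk h1).map Fin.val = t := by
        rw [List.map_pmap]
        simp
      refine ⟨t.pmap Fin.mk h1, h2, ?_⟩
      change fr I.2 k _
      rw [h2]
      exact h
    · rintro ⟨s, rfl, h⟩
      exact h

end Pool.Agent.H374Z.FB
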